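import Pool.Agent.Helper17.CR.Stmts
import Pool.Agent.Helper17.SmoothQuad

/-! Assembly of the main theorem. -/

set_option autoImplicit false

namespace Pool.Agent.Helper17.CR

open Finset

universe u

theorem main_smooth (lam B : ℕ) (hlam : 1 ≤ lam) : ∃ K : ℕ, ∀ k v : ℕ,
    (k : ℤ) ^ 2 = k - lam + lam * v → (∀ p : ℕ, p.Prime → p ∣ v → p ≤ B) → k ≤ K := by
  have hf := Smooth.polya (4 * lam - 1) (B + 2 * lam) (by omega)
  obtain ⟨K, hK⟩ := hf.bddAbove
  refine ⟨K + 1, ?_⟩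
  intro k v hkv hp
  rcases Nat.eq_zero_or_pos k with rfl | hk
  · omega
  have h1 : (2 * k - 1) ^ 2 + (4 * lam - 1) = 4 * (lam * v) := by
    have h2 : (((2 * k - 1) ^ 2 + (4 * lam - 1) : ℕ) : ℤ) = ((4 * (lam * v) : ℕ) : ℤ) := by
      push_cast [show 1 ≤ 2 * k from by omega, show 1 ≤ 4 * lam from by omega]
      linear_combination 4 * hkv
    exact_mod_cast h2
  have h2 : 2 * k - 1 ≤ K := by
    apply hK
    intro p hpp hdv
    rw [h1] at hdv
    rcases (hpp.dvd_mul).mp hdv with h | h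
    · have : p ∣ 2 := by
        have h4 : (4 : ℕ) = 2 ^ 2 := rfl
        rw [h4] at h
        exact hpp.dvd_of_dvd_pow h
      have := Nat.le_of_dvd (by norm_num) this
      omega
    · rcases (hpp.dvd_mul).mp h with h | h
      · have := Nat.le_of_dvd (by omega) h
        omega
      · have := hp p hpp h
        omega
  omega

/-- the group theoretical condition -/
def Cond (H : Type u) [Group H] (lam : ℕ) : Prop :=
  (∀ q : ℕ, q.Prime → q ∣ Nat.card H → (∀ p : ℕ, p.Prime → p ∣ Nat.card H → p ≤ q) →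
      ∃ Q : Subgroup H, Q.Normal ∧ IsPGroup q Q ∧ Q ≠ ⊥) ∨
    (Group.IsSolvable H ∧ ∀ p₁ p₂ : ℕ, p₁.Prime → p₂.Prime → p₁ ∣ 2 * lam → p₂ ∣ 2 * lam →
      p₁ ∣ Nat.card H → p₂ ∣ Nat.card H → p₁ = p₂)

theorem main_group (hN : ST_NUMQ.{u}) (hC : ST_CENT.{u}) (hS : ST_SOLV.{u}) (lam R : ℕ)
    (hlam : 1 ≤ lam) : ∃ K : ℕ, ∀ (H : Type u) [Group H] [Finite H] (r k : ℕ) (a : H → ℕ),
    1 ≤ r → r ≤ R → Arith H lam r k a → Cond H lam → k ≤ K := by
  obtain ⟨K2, hK2⟩ := hS lam R hlam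
  obtain ⟨K3, hK3⟩ := main_smooth lam (2 * lam + R) hlam
  refine ⟨((5 * lam * R) ^ 2 + lam) + K2 + K3, ?_⟩
  intro H _ _ r k a hr1 hrR hA hc
  have hH0 : 0 < Nat.card H := Nat.card_pos
  have hNbound : ∀ q : ℕ, q.Prime → ¬ q ∣ 2 * lam → (∃ Q : Subgroup H, Q.Normal ∧ IsPGroup q Q ∧
      Q ≠ ⊥) → k ≤ ((5 * lam * R) ^ 2 + lam) + K2 + K3 := by
    rintro q hq hq2 ⟨Q, hQ1, hQ2, hQ3⟩
    have h1 := hN H lam r k a hlam hr1 hA q hq hq2 Q hQ1 hQ2 hQ3
    have h2 : (5 * lam * r) ^ 2 ≤ (5 * lam * R) ^ 2 :=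
      Nat.pow_le_pow_left (Nat.mul_le_mul_left _ hrR) 2
    omega
  have hpar : (k : ℤ) ^ 2 = k - lam + lam * ((r * Nat.card H : ℕ) : ℤ) := by
    rw [hA.par]; push_cast; ring
  have hSm : (∀ p : ℕ, p.Prime → p ∣ Nat.card H → p ≤ 2 * lam) →
      k ≤ ((5 * lam * R) ^ 2 + lam) + K2 + K3 := by
    intro h
    have h1 := hK3 k (r * Nat.card H) hpar (by
      intro p hp hdv
      rcases (hp.dvd_mul).mp hdv with h' | h'
      · have := Nat.le_of_dvd (by omega) h'
        omega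
      · have := h p hp h'
        omega)
    omega
  rcases hc with hc | ⟨hsol, huniq⟩
  · by_cases h1 : Nat.card H = 1
    · apply hSm
      intro p hp hdv
      rw [h1] at hdv
      exact absurd (Nat.dvd_one.mp hdv) hp.one_lt.ne'
    · obtain ⟨q, hq, hqmax⟩ : ∃ q ∈ (Nat.card H).primeFactors, ∀ p ∈ (Nat.card H).primeFactors,
          p ≤ q := by
        obtain ⟨q0, hq0, hq0'⟩ := Nat.exists_prime_and_dvd h1
        have hne : (Nat.card H).primeFactors.Nonempty :=
          ⟨q0, Nat.mem_primeFactors.mpr ⟨hq0, hq0', hH0.ne'⟩⟩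
        exact ⟨_, Finset.max'_mem _ hne, fun p hp => Finset.le_max' _ p hp⟩
      obtain ⟨hqp, hqd, _⟩ := Nat.mem_primeFactors.mp hq
      have hmax : ∀ p : ℕ, p.Prime → p ∣ Nat.card H → p ≤ q := fun p hp hdv =>
        hqmax p (Nat.mem_primeFactors.mpr ⟨hp, hdv, hH0.ne'⟩)
      obtain ⟨Q, hQ⟩ := hc q hqp hqd hmax
      by_cases hq2 : q ∣ 2 * lam
      · apply hSm
        intro p hp hdv
        exact (hmax p hp hdv).trans (Nat.le_of_dvd (by omega) hq2)
      · exact hNbound q hqp hq2 ⟨Q, hQ⟩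
  · have hsol' := hsol
    obtain ⟨p0, hp0, hp02, hp0'⟩ : ∃ p : ℕ, p.Prime ∧ p ∣ 2 * lam ∧
        ∀ q : ℕ, q.Prime → q ∣ Nat.card H → q ≠ p → ¬ q ∣ 2 * lam := by
      by_cases hex : ∃ p : ℕ, p.Prime ∧ p ∣ 2 * lam ∧ p ∣ Nat.card H
      · obtain ⟨p, hp, hp2, hpH⟩ := hex
        exact ⟨p, hp, hp2, fun q hq hqH hne hq2 => hne (huniq q p hq hp hq2 hp2 hqH hpH)⟩
      · push Not at hex
        exact ⟨2, Nat.prime_two, dvd_mul_right 2 lam, fun q hq hqH _ hq2 => hex q hq hq2 hqH⟩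
    by_cases hnor : ∃ q : ℕ, q.Prime ∧ q ≠ p0 ∧ ∃ Q : Subgroup H, Q.Normal ∧ IsPGroup q Q ∧ Q ≠ ⊥
    · obtain ⟨q, hq, hqp, Q, hQ1, hQ2, hQ3⟩ := hnor
      have hqH : q ∣ Nat.card H := by
        have : Fact q.Prime := ⟨hq⟩
        obtain ⟨i, hi⟩ := (IsPGroup.iff_card).mp hQ2
        have hi0 : i ≠ 0 := by
          rintro rfl
          rw [pow_zero] at hi
          exact hQ3 (Subgroup.card_eq_one.mp hi)
        exact (dvd_pow_self q hi0).trans (hi ▸ Subgroup.card_subgroup_dvd_card Q)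
      exact hNbound q hq (hp0' q hq hqH hqp) ⟨Q, hQ1, hQ2, hQ3⟩
    push Not at hnor
    by_cases hall : ∀ q : ℕ, q.Prime → q ∣ Nat.card H → q = p0
    · apply hSm
      intro p hp hdv
      rw [hall p hp hdv]
      exact Nat.le_of_dvd (by omega) hp02
    push Not at hall
    obtain ⟨q0, hq0, hq0H, hq0p⟩ := hall
    -- centralizers
    have hcent : ∀ g : H, (orderOf g).Prime → orderOf g ≠ p0 → ∃ α : ℤ, α ^ 2 = (k : ℤ) - lam ∧
        ((orderOf g : ℕ) : ℤ) ∣ k - α ∧
        ((Nat.card (Subgroup.centralizer {g}) : ℕ) : ℤ) ∣ k - α := fun g hg hgp =>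
      hC H lam r k a hA g hg (hp0' _ hg (orderOf_dvd_natCard g) hgp)
    have hcauchy : ∀ q : ℕ, q.Prime → q ∣ Nat.card H → ∃ g : H, orderOf g = q := by
      intro q hq hqH
      have : Fact q.Prime := ⟨hq⟩
      exact exists_prime_orderOf_dvd_card' q hqH
    obtain ⟨g0, hg0⟩ := hcauchy q0 hq0 hq0H
    obtain ⟨α0, hα0, _, _⟩ := hcent g0 (by rw [hg0]; exact hq0) (by rw [hg0]; exact hq0p)
    set s : ℕ := α0.natAbs with hs
    have hs2 : (s : ℤ) ^ 2 = (k : ℤ) - lam := by rw [hs, Int.natAbs_sq, hα0]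
    have hlt := hA.lt
    have hs1 : 1 ≤ s := by
      rcases Nat.eq_zero_or_pos s with h0 | h0
      · rw [h0] at hs2
        push_cast at hs2
        omega
      · exact h0
    have hroot : ∀ α : ℤ, α ^ 2 = (k : ℤ) - lam → α = s ∨ α = -s := by
      intro α hα
      have h1 : α ^ 2 = (s : ℤ) ^ 2 := by rw [hα, hs2]
      exact sq_eq_sq_iff_eq_or_eq_neg.mp h1
    have huni : ∀ q : ℕ, ¬ q ∣ 2 * lam → ∀ α β : ℤ, α ^ 2 = (k : ℤ) - lam → β ^ 2 = (k : ℤ) - lam →
        (q : ℤ) ∣ k - α → (q : ℤ) ∣ k - β → α = β := by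
      intro q hq α β hα hβ h1 h2
      by_contra hne
      have h3 : α = -β := by
        rcases hroot α hα with h | h <;> rcases hroot β hβ with h' | h'
        · exact absurd (h.trans h'.symm) hne
        · rw [h, h', neg_neg]
        · rw [h, h']
        · exact absurd (h.trans h'.symm) hne
      apply hq
      have h4 : (q : ℤ) ∣ ((2 * lam : ℕ) : ℤ) := by
        have e : ((2 * lam : ℕ) : ℤ) = (k - α) * (1 - β) + (k - β) * (1 + β) := by
          push_cast
          have e1 : (lam : ℤ) = k - β ^ 2 := by rw [hβ]; ring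
          rw [e1, h3]; ring
        rw [e]
        exact dvd_add (h1.mul_right _) (h2.mul_right _)
      exact_mod_cast h4
    have hal : ∀ q : ℕ, ∃ α : ℤ, (q.Prime → q ∣ Nat.card H → q ≠ p0 → α ^ 2 = (k : ℤ) - lam ∧
        (q : ℤ) ∣ k - α) := by
      intro q
      by_cases h : q.Prime ∧ q ∣ Nat.card H ∧ q ≠ p0
      · obtain ⟨h1, h2, h3⟩ := h
        obtain ⟨g, hg⟩ := hcauchy q h1 h2
        obtain ⟨α, hα, hα', _⟩ := hcent g (by rw [hg]; exact h1) (by rw [hg]; exact h3)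
        rw [hg] at hα'
        exact ⟨α, fun _ _ _ => ⟨hα, hα'⟩⟩
      · exact ⟨0, fun h1 h2 h3 => absurd ⟨h1, h2, h3⟩ h⟩
    choose al hal using hal
    have hSgn : Sgn H lam r k s p0 al := by
      refine ⟨?_, hs1, ?_, hp0, Nat.le_of_dvd (by omega) hp02, ?_, ?_, ?_⟩
      · rw [hs2]; ring
      · have h1 := hA.par
        have : ((k : ℤ) - s) * (k + s) = k ^ 2 - s ^ 2 := by ring
        rw [this, hs2, h1]; ring
      · intro q hq hqH hqp
        obtain ⟨h1, h2⟩ := hal q hq hqH hqp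
        exact ⟨hp0' q hq hqH hqp, hroot _ h1, h2⟩
      · intro g hg hgp
        obtain ⟨α, hα, hα', hα''⟩ := hcent g hg hgp
        obtain ⟨h1, h2⟩ := hal _ hg (orderOf_dvd_natCard g) hgp
        rw [huni _ (hp0' _ hg (orderOf_dvd_natCard g) hgp) _ _ h1 hα h2 hα']
        exact hα''
      · intro q hq hqp Q hQ1 hQ2
        exact hnor q hq hqp Q hQ1 hQ2
    have := hK2 H r k s p0 al hr1 hrR hSgn
    omega

/-- symmetric designs with an index which is a prime power: at most one prime divisor of twice the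
index divides the number of points -/
theorem main_pp (lam k v : ℕ) (hlam : IsPrimePow lam) (h : (k : ℤ) ^ 2 = k - lam + lam * v)
    (p₁ p₂ : ℕ) (h1 : p₁.Prime) (h2 : p₂.Prime) (h3 : p₁ ∣ 2 * lam) (h4 : p₂ ∣ 2 * lam)
    (h5 : p₁ ∣ v) (h6 : p₂ ∣ v) : p₁ = p₂ := by
  rw [isPrimePow_nat_iff] at hlam
  obtain ⟨p, j, hp, hj, rfl⟩ := hlam
  have key : ∀ q : ℕ, q.Prime → q ∣ 2 * p ^ j → q ∣ v → q = p := by
    intro q hq hq2 hqv
    rcases (hq.dvd_mul).mp hq2 with h' | h'
    · have hq2' : q = 2 := (Nat.prime_dvd_prime_iff_eq hq Nat.prime_two).mp h'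
      subst hq2'
      rcases hp.eq_two_or_odd' with h'' | h''
      · exact h''.symm
      · exfalso
        obtain ⟨w, hw⟩ := hqv
        have hodd : Odd ((p ^ j : ℕ) : ℤ) := by exact_mod_cast h''.pow
        obtain ⟨c, hc⟩ := hodd
        have he : Even ((k : ℤ) * (k - 1)) := Int.even_mul_pred_self k
        obtain ⟨d, hd⟩ := he
        rw [hc, hw] at h
        push_cast at h
        have h7 : (k : ℤ) * (k - 1) = 2 * (-c + (2 * c + 1) * w) - 1 := by
          linear_combination h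
        rw [hd] at h7
        generalize -c + (2 * c + 1) * (w : ℤ) = t at h7
        omega
    · exact (Nat.prime_dvd_prime_iff_eq hq hp).mp (hq.dvd_of_dvd_pow h')
  rw [key p₁ h1 h3 h5, key p₂ h2 h4 h6]

theorem main (hD : ST_DES.{u}) (hP : ST_PAR.{u}) (hN : ST_NUMQ.{u}) (hC : ST_CENT.{u})
    (hS : ST_SOLV.{u}) (lam R : ℕ) (hlam : 1 ≤ lam) : ∃ K : ℕ, ∀ (X : Type u) [Fintype X]
    [DecidableEq X] (blocks : Finset (Finset X)) (k : ℕ) (θ : X → Finset X) (σ : X → X)
    (H : Subgroup (Equiv.Perm X)), blocks.card = Fintype.card X → (∀ b ∈ blocks, b.card = k) →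
    (∀ x y : X, x ≠ y → (blocks.filter (fun b => x ∈ b ∧ y ∈ b)).card = lam) →
    (∀ x, θ x ∈ blocks) → Function.Injective θ → (∀ x y, x ∈ θ y ↔ σ y ∈ θ x) →
    (∀ h ∈ H, ∀ x, θ (h x) = (θ x).image h) → (∀ h ∈ H, ∀ x, h x = x → h = 1) →
    Fintype.card X ≤ R * Nat.card H →
    ((∀ q : ℕ, q.Prime → q ∣ Nat.card H → (∀ p : ℕ, p.Prime → p ∣ Nat.card H → p ≤ q) →
        ∃ Q : Subgroup H, Q.Normal ∧ IsPGroup q Q ∧ Q ≠ ⊥) ∨
      (Group.IsSolvable H ∧ (IsPrimePow lam ∨ ∀ p₁ p₂ : ℕ, p₁.Prime → p₂.Prime → p₁ ∣ 2 * lam →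
        p₂ ∣ 2 * lam → p₁ ∣ Nat.card H → p₂ ∣ Nat.card H → p₁ = p₂))) →
    Fintype.card X ≤ K := by
  obtain ⟨K, hK⟩ := main_group hN hC hS lam R hlam
  refine ⟨K ^ 2 + 1, ?_⟩
  intro X _ _ blocks k θ σ H hv hk hl hθ hθi hσ hHθ hfree hR hc
  by_cases hX : Fintype.card X ≤ 1
  · omega
  push Not at hX
  have hσi : Function.Injective σ := by
    intro y y' h
    apply hθi
    ext x
    rw [hσ x y, hσ x y', h]
  have hσb : Function.Bijective σ := Finite.injective_iff_bijective.mp hσi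
  set σ' : Equiv.Perm X := Equiv.ofBijective σ hσb with hσ'
  have himg : Finset.univ.image θ = blocks := by
    apply Finset.eq_of_subset_of_card_le
    · intro b hb
      obtain ⟨x, _, rfl⟩ := Finset.mem_image.mp hb
      exact hθ x
    · rw [Finset.card_image_of_injective _ hθi, Finset.card_univ, hv]
  have hcor : Cor lam k θ σ' := by
    refine ⟨fun y => hk _ (hθ y), ?_, fun x y => hσ x y⟩
    intro x x' hxx'
    rw [← hl x x' hxx', ← himg, Finset.filter_image, Finset.card_image_of_injective _ hθi]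
  have hrep : ∀ x, (univ.filter (fun y => x ∈ θ y)).card = k := by
    intro x
    rw [← hcor.card x]
    have e : (univ.filter (fun y => x ∈ θ y)).map σ'.toEmbedding = θ x := by
      ext z
      simp only [Finset.mem_map, Finset.mem_filter, Finset.mem_univ, true_and,
        Equiv.coe_toEmbedding]
      constructor
      · rintro ⟨y, hy, rfl⟩
        exact (hσ x y).mp hy
      · intro hz
        refine ⟨σ'.symm z, ?_, σ'.apply_symm_apply z⟩
        rw [hσ]
        have : σ (σ'.symm z) = z := σ'.apply_symm_apply z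
        rw [this]
        exact hz
    rw [← e, Finset.card_map]
  obtain ⟨x0, y0, hxy⟩ := Fintype.one_lt_card_iff.mp hX
  have hlk : lam < k := by
    by_contra hle
    push Not at hle
    have hall : ∀ z, x0 ≠ z → ∀ y, x0 ∈ θ y → z ∈ θ y := by
      intro z hz y hy
      have h1 := hcor.pair x0 z hz
      have h2 : (univ.filter (fun y => x0 ∈ θ y ∧ z ∈ θ y)) = univ.filter (fun y => x0 ∈ θ y) := by
        apply Finset.eq_of_subset_of_card_le
        · intro y hy
          simp only [Finset.mem_filter, Finset.mem_univ, true_and] at hy ⊢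
          exact hy.1
        · rw [h1, hrep]
          exact hle
      have h3 : y ∈ univ.filter (fun y => x0 ∈ θ y) := by simp [hy]
      rw [← h2] at h3
      simp only [Finset.mem_filter, Finset.mem_univ, true_and] at h3
      exact h3.2
    have huniv : ∀ y, x0 ∈ θ y → θ y = univ := by
      intro y hy
      ext z
      simp only [Finset.mem_univ, iff_true]
      by_cases hz : x0 = z
      · rw [← hz]; exact hy
      · exact hall z hz y hy
    have hcard1 : (univ.filter (fun y => x0 ∈ θ y)).card ≤ 1 := by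
      rw [Finset.card_le_one]
      intro y hy y' hy'
      simp only [Finset.mem_filter, Finset.mem_univ, true_and] at hy hy'
      apply hθi
      rw [huniv y hy, huniv y' hy']
    rw [hrep] at hcard1
    have h4 : 0 < (univ.filter (fun y => x0 ∈ θ y ∧ y0 ∈ θ y)).card := by
      rw [hcor.pair x0 y0 hxy]; omega
    obtain ⟨y, hy⟩ := Finset.card_pos.mp h4
    simp only [Finset.mem_filter, Finset.mem_univ, true_and] at hy
    have h5 := hcor.card y
    rw [huniv y hy.1, Finset.card_univ] at h5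
    omega
  have hne : Nonempty X := ⟨x0⟩
  obtain ⟨r, a, hr1, hrR, hvr, hA⟩ := hD X lam k R θ σ' H hlam hlk hcor hHθ hfree hR
  have hpar := hP X lam k θ σ' hcor
  have hc' : Cond H lam := by
    rcases hc with hc | ⟨hsol, hc | hc⟩
    · exact Or.inl hc
    · refine Or.inr ⟨hsol, ?_⟩
      intro p₁ p₂ h1 h2 h3 h4 h5 h6
      exact main_pp lam k (Fintype.card X) hc hpar p₁ p₂ h1 h2 h3 h4
        (hvr ▸ h5.mul_left r) (hvr ▸ h6.mul_left r)
    · exact Or.inr ⟨hsol, hc⟩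
  have hkK := hK H r k a hr1 hrR hA hc'
  have hvk : Fintype.card X ≤ k ^ 2 := by
    have h1 : ((Fintype.card X : ℕ) : ℤ) ≤ (k : ℤ) ^ 2 := by
      have h2 : (1 : ℤ) ≤ lam := by exact_mod_cast hlam
      have h3 : ((Fintype.card X : ℕ) : ℤ) ≤ lam * (Fintype.card X : ℕ) := by
        have : (0 : ℤ) ≤ (Fintype.card X : ℕ) := by positivity
        nlinarith
      have h4 : (lam : ℤ) < k := by exact_mod_cast hlk
      linarith
    exact_mod_cast h1
  have : k ^ 2 ≤ K ^ 2 := Nat.pow_le_pow_left hkK 2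
  omega

end Pool.Agent.Helper17.CR
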