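import Mathlib

/-!
MP_c38931_co: symmetric designs with a correlation commuting with a large semiregular group.
Definitions and statements of the modules.
-/

set_option autoImplicit false

namespace Pool.Agent.Helper17.CR

open Finset

universe u

/-! ## A. The core: traces on the eigenspaces of an element of `q`-power order -/

/-- all ones matrix -/
def JJ (T : Type u) (R : Type) [One R] : Matrix T T R := fun _ _ => 1

/-- the ring of algebraic integers in `ℂ` -/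
abbrev OO : Subalgebra ℤ ℂ := integralClosure ℤ ℂ

/-- a residue field of characteristic `q` of the algebraic integers -/
def ST_PHI : Prop := ∀ q : ℕ, q.Prime → ∃ (F : Type) (_ : Field F) (_ : OO →+* F), CharP F q

/-- `X = T × ZMod m` for a fixed point free action of a cyclic group of order `m` -/
def ST_FIB : Prop := ∀ (X : Type u) [Fintype X] [DecidableEq X] (g : Equiv.Perm X) (m : ℕ)
  [NeZero m], g ^ m = 1 → (∀ (i : ℕ) (x : X), (g ^ i) x = x → m ∣ i) →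
  ∃ (T : Type u) (_ : Fintype T) (_ : DecidableEq T) (f : X ≃ T × ZMod m),
    ∀ x, f (g x) = ((f x).1, (f x).2 + 1)

/-- the value at the character `χ` of a block circulant matrix -/
def hat {T : Type u} {R : Type} [CommRing R] (m : ℕ) [NeZero m]
    (A : Matrix (T × ZMod m) (T × ZMod m) R) (χ : ZMod m → R) : Matrix T T R :=
  fun t t' => ∑ d : ZMod m, A (t, 0) (t', d) * χ d

/-- block circulant -/
def Circ {T : Type u} {R : Type} (m : ℕ) (A : Matrix (T × ZMod m) (T × ZMod m) R) : Prop :=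
  ∀ x y, A (x.1, x.2 + 1) (y.1, y.2 + 1) = A x y

def ST_MULT : Prop := ∀ (T : Type u) [Fintype T] [DecidableEq T] (R : Type) [CommRing R] (m : ℕ)
  [NeZero m] (χ : AddChar (ZMod m) R) (A B : Matrix (T × ZMod m) (T × ZMod m) R), Circ m B →
  hat m (A * B) χ = hat m A χ * hat m B χ ∧ hat m (1 : Matrix (T × ZMod m) (T × ZMod m) R) χ = 1

def ST_ROOT : Prop := ∀ (T : Type u) [Fintype T] [DecidableEq T] (M : Matrix T T ℂ) (L : ℕ) (a : ℂ),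
  M ^ L = a • (1 : Matrix T T ℂ) → ∀ x ∈ M.charpoly.roots, x ^ L = a

/-- rank one modification: replace the eigenvalue `k` on the constants by `β` -/
def ST_RANK : Prop := ∀ (T : Type u) [Fintype T] [DecidableEq T] [Nonempty T] (B : Matrix T T ℂ)
  (L : ℕ) (k β a mu : ℂ), 1 ≤ L → (∀ i, ∑ j, B i j = k) → (∀ j, ∑ i, B i j = k) →
  B ^ L = a • (1 : Matrix T T ℂ) + mu • JJ T ℂ → β ^ L = a →
  ∃ B' : Matrix T T ℂ, B.charpoly * (Polynomial.X - Polynomial.C β) =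
      (Polynomial.X - Polynomial.C k) * B'.charpoly ∧
    B' ^ L = a • (1 : Matrix T T ℂ) ∧ B'.trace = B.trace - k + β

/-- the roots of the characteristic polynomials of congruent matrices are congruent -/
def ST_CONG : Prop := ∀ (T : Type u) [Fintype T] [DecidableEq T] (F : Type) [Field F]
  (φ : OO →+* F) (M M' : Matrix T T OO), M.map φ = M'.map φ →
  ∃ r r' : Multiset OO, r.map (algebraMap OO ℂ) = (M.map (algebraMap OO ℂ)).charpoly.roots ∧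
    r'.map (algebraMap OO ℂ) = (M'.map (algebraMap OO ℂ)).charpoly.roots ∧ r.map φ = r'.map φ

def ST_INJ : Prop := ∀ (q : ℕ) (F : Type) [Field F] [CharP F q] (φ : OO →+* F) (n : ℤ) (c : ℕ),
  q.Prime → q ≠ 2 → ¬ (q : ℤ) ∣ n → ∀ x y : OO, x ^ (2 ^ (c + 1)) = (n : OO) ^ (2 ^ c) →
  y ^ (2 ^ (c + 1)) = (n : OO) ^ (2 ^ c) → φ x = φ y → x = y

def ST_TR : Prop := ∀ (T : Type u) [Fintype T] [DecidableEq T] [Nonempty T] (q : ℕ) (F : Type)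
  [Field F] [CharP F q] (φ : OO →+* F) (n k mu : ℤ) (c : ℕ), q.Prime → q ≠ 2 → 0 < n →
  ¬ (q : ℤ) ∣ n → ∀ B1 Bz : Matrix T T OO, B1.map φ = Bz.map φ →
  (∀ i, ∑ j, B1 i j = (k : OO)) → (∀ j, ∑ i, B1 i j = (k : OO)) →
  B1 ^ (2 ^ (c + 1)) = ((n : OO) ^ (2 ^ c)) • (1 : Matrix T T OO) + (mu : OO) • JJ T OO →
  Bz ^ (2 ^ (c + 1)) = ((n : OO) ^ (2 ^ c)) • (1 : Matrix T T OO) →
  ∃ α : OO, α ^ (2 ^ (c + 1)) = (n : OO) ^ (2 ^ c) ∧ φ α = φ (k : OO) ∧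
    Bz.trace = B1.trace - (k : OO) + α

def ST_CORE0 : Prop := ∀ (T : Type u) [Fintype T] [DecidableEq T] [Nonempty T] (q e m : ℕ)
  [NeZero m], q.Prime → q ≠ 2 → m = q ^ e → 1 < m →
  ∀ (A : Matrix (T × ZMod m) (T × ZMod m) ℤ) (n k mu : ℤ) (c : ℕ), 0 < n → ¬ (q : ℤ) ∣ n →
  Circ m A → (∀ x, ∑ y, A x y = k) → (∀ y, ∑ x, A x y = k) →
  A ^ (2 ^ (c + 1)) = (n ^ (2 ^ c)) • (1 : Matrix (T × ZMod m) (T × ZMod m) ℤ) +
    mu • JJ (T × ZMod m) ℤ →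
  ∃ α : ℤ, α ^ 2 = n ∧ (q : ℤ) ∣ k - α ∧ ∑ x : T × ZMod m, A x (x.1, x.2 + 1) = k - α

def ST_CORE : Prop := ∀ (X : Type u) [Fintype X] [DecidableEq X] [Nonempty X] (q e : ℕ)
  (g : Equiv.Perm X), q.Prime → q ≠ 2 → g ^ (q ^ e) = 1 → g ≠ 1 →
  (∀ (i : ℕ) (x : X), (g ^ i) x = x → g ^ i = 1) →
  ∀ (A : Matrix X X ℤ) (n k mu : ℤ) (c : ℕ), 0 < n → ¬ (q : ℤ) ∣ n →
  (∀ x y, A (g x) (g y) = A x y) → (∀ x, ∑ y, A x y = k) → (∀ y, ∑ x, A x y = k) →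
  A ^ (2 ^ (c + 1)) = (n ^ (2 ^ c)) • (1 : Matrix X X ℤ) + mu • JJ X ℤ →
  ∃ α : ℤ, α ^ 2 = n ∧ (q : ℤ) ∣ k - α ∧ ∑ x : X, A x (g x) = k - α

/-! ## B. Designs with a correlation -/

section
variable {X : Type u} [Fintype X] [DecidableEq X]

/-- a symmetric design, the block of the point `y` is `θ y`, and `θ` is a correlation: it extends
to the blocks by `θ y ↦ σ y` -/
structure Cor (lam k : ℕ) (θ : X → Finset X) (σ : Equiv.Perm X) : Prop where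
  card : ∀ y, (θ y).card = k
  pair : ∀ x x', x ≠ x' → (univ.filter (fun y => x ∈ θ y ∧ x' ∈ θ y)).card = lam
  cor : ∀ x y, x ∈ θ y ↔ σ y ∈ θ x

/-- incidence matrix -/
def inc (θ : X → Finset X) : Matrix X X ℤ := fun x y => if x ∈ θ y then 1 else 0

/-- `g` is an automorphism commuting with the correlation -/
def Aut (θ : X → Finset X) (g : Equiv.Perm X) : Prop := ∀ x, θ (g x) = (θ x).image g

end

def ST_COMM : Prop := ∀ (X : Type u) [Fintype X] [DecidableEq X] (lam k : ℕ) (θ : X → Finset X)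
  (σ g : Equiv.Perm X), lam < k → Cor lam k θ σ → Aut θ g → ∀ x, σ (g x) = g (σ x)

/-- reduction to a correlation whose square has 2-power order -/
def ST_RED : Prop := ∀ (X : Type u) [Fintype X] [DecidableEq X] (lam k : ℕ) (θ : X → Finset X)
  (σ : Equiv.Perm X), Cor lam k θ σ → ∃ (θ' : X → Finset X) (σ' : Equiv.Perm X) (c : ℕ),
  Cor lam k θ' σ' ∧ σ' ^ (2 ^ c) = 1 ∧
    ∀ g : Equiv.Perm X, Aut θ g → (∀ x, σ (g x) = g (σ x)) → Aut θ' g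

def ST_POW : Prop := ∀ (X : Type u) [Fintype X] [DecidableEq X] (lam k c : ℕ) (θ : X → Finset X)
  (σ : Equiv.Perm X), Cor lam k θ σ → σ ^ (2 ^ c) = 1 →
  (∀ x, ∑ y, inc θ x y = k) ∧ (∀ y, ∑ x, inc θ x y = k) ∧
  ∃ mu : ℤ, inc θ ^ (2 ^ (c + 1)) = (((k : ℤ) - lam) ^ (2 ^ c)) • (1 : Matrix X X ℤ) + mu • JJ X ℤ

def ST_PAR : Prop := ∀ (X : Type u) [Fintype X] [DecidableEq X] [Nonempty X] (lam k : ℕ)
  (θ : X → Finset X) (σ : Equiv.Perm X), Cor lam k θ σ →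
  (k : ℤ) ^ 2 = k - lam + lam * (Fintype.card X : ℤ)

/-- the group acts freely on the pairs `(g, x)` with `x ∈ θ (g x)` -/
def ST_EQV : Prop := ∀ (X : Type u) [Fintype X] [DecidableEq X] (θ : X → Finset X)
  (H : Subgroup (Equiv.Perm X)), (∀ h ∈ H, Aut θ h) → (∀ h ∈ H, ∀ x, h x = x → h = 1) →
  Nat.card H ∣ Fintype.card X ∧
  ∀ E : Finset H, (∀ g ∈ E, ∀ h : H, h * g * h⁻¹ ∈ E) →
    Nat.card H ∣ ∑ g ∈ E, (univ.filter (fun x => x ∈ θ (g.1 x))).card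

/-- the data extracted from the design; `v = r |G|` -/
structure Arith (G : Type u) [Group G] [Finite G] (lam r k : ℕ) (a : G → ℕ) : Prop where
  lt : lam < k
  par : (k : ℤ) ^ 2 = k - lam + lam * (r * Nat.card G)
  inv : ∀ E : Finset G, (∀ g ∈ E, ∀ h : G, h * g * h⁻¹ ∈ E) → Nat.card G ∣ ∑ g ∈ E, a g
  val : ∀ q e : ℕ, q.Prime → ¬ q ∣ 2 * lam → ∀ g : G, g ≠ 1 → g ^ (q ^ e) = 1 →
    ∃ α : ℤ, α ^ 2 = (k : ℤ) - lam ∧ (q : ℤ) ∣ k - α ∧ (a g : ℤ) = k - α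

def ST_DES : Prop := ∀ (X : Type u) [Fintype X] [DecidableEq X] [Nonempty X] (lam k R : ℕ)
  (θ : X → Finset X) (σ : Equiv.Perm X) (H : Subgroup (Equiv.Perm X)), 1 ≤ lam → lam < k →
  Cor lam k θ σ → (∀ h ∈ H, Aut θ h) → (∀ h ∈ H, ∀ x, h x = x → h = 1) →
  Fintype.card X ≤ R * Nat.card H → ∃ (r : ℕ) (a : H → ℕ), 1 ≤ r ∧ r ≤ R ∧
    Fintype.card X = r * Nat.card H ∧ Arith H lam r k a

/-! ## C. Groups -/

def ST_NUMQ : Prop := ∀ (G : Type u) [Group G] [Finite G] (lam r k : ℕ) (a : G → ℕ), 1 ≤ lam →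
  1 ≤ r → Arith G lam r k a → ∀ q : ℕ, q.Prime → ¬ q ∣ 2 * lam → ∀ Q : Subgroup G, Q.Normal →
  IsPGroup q Q → Q ≠ ⊥ → k ≤ (5 * lam * r) ^ 2 + lam

def ST_CENT : Prop := ∀ (G : Type u) [Group G] [Finite G] (lam r k : ℕ) (a : G → ℕ),
  Arith G lam r k a → ∀ g : G, (orderOf g).Prime → ¬ orderOf g ∣ 2 * lam →
  ∃ α : ℤ, α ^ 2 = (k : ℤ) - lam ∧ ((orderOf g : ℕ) : ℤ) ∣ k - α ∧
    ((Nat.card (Subgroup.centralizer {g}) : ℕ) : ℤ) ∣ k - α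

/-- large prime factors (Polya's theorem) -/
def ST_BIG : Prop := ∀ lam B : ℕ, 1 ≤ lam → ∃ S : ℕ, ∀ s : ℕ, S < s →
  (∃ p : ℕ, p.Prime ∧ B < p ∧ (p : ℤ) ∣ (s : ℤ) ^ 2 + s + lam) ∧
  ∃ p : ℕ, p.Prime ∧ B < p ∧ (p : ℤ) ∣ (s : ℤ) ^ 2 - s + lam

/-- the largest normal `p`-subgroup -/
def ST_OP : Prop := ∀ (G : Type u) [Group G] [Finite G] (p : ℕ), p.Prime →
  ∃ F : Subgroup G, F.Normal ∧ IsPGroup p F ∧ ∀ N : Subgroup G, N.Normal → IsPGroup p N → N ≤ F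

/-- `C_G(F) ≤ F` -/
def ST_FITC : Prop := ∀ (G : Type u) [Group G] [Finite G] [Group.IsSolvable G] (p : ℕ) (F : Subgroup G),
  p.Prime → F.Normal → IsPGroup p F → (∀ N : Subgroup G, N.Normal → IsPGroup p N → N ≤ F) →
  (∀ q : ℕ, q.Prime → q ≠ p → ∀ N : Subgroup G, N.Normal → IsPGroup q N → N = ⊥) →
  Subgroup.centralizer (F : Set G) ≤ F

/-- the Frattini subgroup of a normal `p`-subgroup -/
def ST_FRAT : Prop := ∀ (G : Type u) [Group G] [Finite G] (p : ℕ) (F : Subgroup G),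
  p.Prime → F.Normal → IsPGroup p F → ∃ Ph : Subgroup G, Ph.Normal ∧ Ph ≤ F ∧
    (∀ x ∈ F, x ^ p ∈ Ph) ∧ (∀ x ∈ F, ∀ y ∈ F, x * y * x⁻¹ * y⁻¹ ∈ Ph) ∧
    ∀ U : Subgroup G, U ≤ F → F ≤ U ⊔ Ph → U = F

/-- coprime action: fixed cosets contain fixed points -/
def ST_FIXQ : Prop := ∀ (G : Type u) [Group G] [Finite G] (p : ℕ) (N : Subgroup G),
  p.Prime → N.Normal → IsPGroup p N → ∀ g x : G, (orderOf g).Prime → orderOf g ≠ p →
  x⁻¹ * (g * x * g⁻¹) ∈ N → ∃ n ∈ N, g * (x * n) * g⁻¹ = x * n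

/-- the module `F / Phi(F)` -/
def ST_MOD : Prop := ∀ (G : Type u) [Group G] [Finite G] [Group.IsSolvable G] (p : ℕ) [Fact p.Prime]
  (F : Subgroup G), F.Normal → IsPGroup p F →
  (∀ N : Subgroup G, N.Normal → IsPGroup p N → N ≤ F) →
  (∀ q : ℕ, q.Prime → q ≠ p → ∀ N : Subgroup G, N.Normal → IsPGroup q N → N = ⊥) →
  ∃ (V : Type u) (_ : AddCommGroup V) (_ : Module (ZMod p) V) (_ : Finite V)
    (ρ : G →* (V →ₗ[ZMod p] V)), (∀ g, ρ g = 1 ↔ g ∈ F) ∧ Nat.card V ≤ Nat.card F ∧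
    ∀ g : G, (orderOf g).Prime → orderOf g ≠ p → Nat.card {v : V // ρ g v = v} ≤
      Nat.card (F ⊓ Subgroup.centralizer {g} : Subgroup G)

/-- lifting of elements of prime order -/
def ST_LIFT : Prop := ∀ (G : Type u) [Group G] [Finite G] (p : ℕ) (F : Subgroup G) [F.Normal],
  p.Prime → IsPGroup p F →
  (∀ x : G ⧸ F, (orderOf x).Prime → orderOf x ≠ p → ∃ g : G, orderOf g = orderOf x ∧ (g : G ⧸ F) = x) ∧
  ∀ x y : G ⧸ F, (orderOf x).Prime → orderOf x ≠ p → (orderOf y).Prime → orderOf y ≠ p →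
    orderOf x ≠ orderOf y → x * y = y * x →
    ∃ g h : G, orderOf g = orderOf x ∧ orderOf h = orderOf y ∧ g * h = h * g

/-- an abelian normal `q`-subgroup -/
def ST_MIN : Prop := ∀ (G : Type u) [Group G] [Finite G] [Group.IsSolvable G] [Nontrivial G] (p : ℕ),
  (∀ N : Subgroup G, N.Normal → IsPGroup p N → N = ⊥) →
  ∃ (q : ℕ) (M : Subgroup G), q.Prime ∧ q ≠ p ∧ M.Normal ∧ IsPGroup q M ∧ M ≠ ⊥ ∧
    ∀ x ∈ M, ∀ y ∈ M, x * y = y * x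

/-- the weights of an abelian normal `q`-subgroup on a module in characteristic `p` -/
def ST_WT : Prop := ∀ (G : Type u) [Group G] [Finite G] (p : ℕ) [Fact p.Prime] (V : Type u)
  [AddCommGroup V] [Module (ZMod p) V] [Finite V] (ρ : G →* (V →ₗ[ZMod p] V)),
  Function.Injective ρ → ∀ (q : ℕ) (M : Subgroup G), q.Prime → q ≠ p → M.Normal → IsPGroup q M →
  M ≠ ⊥ → (∀ x ∈ M, ∀ y ∈ M, x * y = y * x) →
  ∃ (K : Type) (_ : Field K) (Om : Finset (G → K)), p ^ Om.card ≤ Nat.card V ∧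
    (∀ χ ∈ Om, χ 1 = 1 ∧ (∀ x ∈ M, ∀ y ∈ M, χ (x * y) = χ x * χ y) ∧ ∀ x, x ∉ M → χ x = 0) ∧
    (∀ χ ∈ Om, ∀ g : G, (fun x => χ (g * x * g⁻¹)) ∈ Om) ∧ ∃ χ ∈ Om, ∃ x ∈ M, χ x ≠ 1

/-- case A -/
def ST_CASEA : Prop := ∀ (G : Type u) [Group G] [Finite G] (p : ℕ) [Fact p.Prime] (V : Type u)
  [AddCommGroup V] [Module (ZMod p) V] [Finite V] (ρ : G →* (V →ₗ[ZMod p] V)),
  Function.Injective ρ → ∀ (q : ℕ) (M : Subgroup G), q.Prime → q ≠ p → M.Normal → IsPGroup q M →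
  M ≠ ⊥ → (∀ x ∈ M, ∀ y ∈ M, x * y = y * x) → ∀ Pi : ℕ → Prop,
  (∀ g : G, (orderOf g).Prime → Pi (orderOf g) → ∀ x ∈ M, g * x = x * g → x = 1) →
  ∃ d : ℕ, 0 < d ∧ p ^ d ≤ Nat.card V ∧
    ∀ l j : ℕ, l.Prime → Pi l → l ^ j ∣ Nat.card G → l ^ j ∣ d

/-- two commuting subgroups of order `l` with few fixed points -/
def ST_NC : Prop := ∀ (G : Type u) [Group G] [Finite G] (p : ℕ) [Fact p.Prime] (V : Type u)
  [AddCommGroup V] [Module (ZMod p) V] [Finite V] (ρ : G →* (V →ₗ[ZMod p] V)) (l m : ℕ) (x y : G),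
  l.Prime → l ≠ p → 1 ≤ m → orderOf x = l → orderOf y = l → x * y = y * x →
  y ∉ Subgroup.zpowers x →
  (∀ g ∈ Subgroup.closure {x, y}, g ≠ 1 → Nat.card {v : V // ρ g v = v} ≤ m) →
  Nat.card V ≤ m ^ (m + 1)

/-- `l`-groups with one subgroup of order `l` -/
def ST_CYC : Prop := ∀ (P : Type u) [Group P] [Finite P] (l : ℕ), l.Prime → l ≠ 2 → IsPGroup l P →
  (∀ x y : P, orderOf x = l → orderOf y = l → x * y = y * x → y ∈ Subgroup.zpowers x) → IsCyclic P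

/-- nilpotent groups with cyclic Sylow subgroups -/
def ST_NILC : Prop := ∀ (G : Type u) [Group G] [Finite G] [Group.IsNilpotent G],
  (∀ (l : ℕ) [Fact l.Prime] (P : Sylow l G), IsCyclic P) → IsCyclic G

/-- a self-centralizing cyclic normal subgroup -/
def ST_MAXC : Prop := ∀ (G : Type u) [Group G] [Finite G] [Group.IsSolvable G] (M : Subgroup G),
  M.Normal → (∀ N : Subgroup G, N.Normal → M ≤ N → Group.IsNilpotent N → IsCyclic N) →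
  Group.IsNilpotent M →
  ∃ A : Subgroup G, A.Normal ∧ M ≤ A ∧ IsCyclic A ∧ Subgroup.centralizer (A : Set G) ≤ A

def ST_ABQ : Prop := ∀ (G : Type u) [Group G] [Finite G] (A : Subgroup G), A.Normal → IsCyclic A →
  Subgroup.centralizer (A : Set G) ≤ A → ∀ x y : G, x * y * x⁻¹ * y⁻¹ ∈ A

def ST_ORD : Prop := ∀ (G : Type u) [Group G] [Finite G] (A : Subgroup G), A.Normal →
  (∀ x y : G, x * y * x⁻¹ * y⁻¹ ∈ A) → ∀ l l' : ℕ, l.Prime → l'.Prime → l ≠ l' → l ∣ A.index →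
  l' ∣ A.index → ∃ x y : G, orderOf x = l ∧ orderOf y = l' ∧ x * y = y * x

def ST_LIN : Prop := ∀ (p : ℕ) [Fact p.Prime] (V : Type u) [AddCommGroup V] [Module (ZMod p) V]
  [Finite V] (f : V →ₗ[ZMod p] V), IsOfFinOrder f → orderOf f ≤ Nat.card V

/-- case B -/
def ST_CASEB : Prop := ∀ (G : Type u) [Group G] [Finite G] [Group.IsSolvable G] (p : ℕ) [Fact p.Prime]
  (V : Type u) [AddCommGroup V] [Module (ZMod p) V] [Finite V] (ρ : G →* (V →ₗ[ZMod p] V)),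
  Function.Injective ρ → (∀ N : Subgroup G, N.Normal → IsPGroup p N → N = ⊥) →
  ∀ (q m : ℕ) (M : Subgroup G) (col : ℕ → Prop), q.Prime → q ≠ p → M.Normal → IsPGroup q M →
  M ≠ ⊥ → (∀ x ∈ M, ∀ y ∈ M, x * y = y * x) → 1 ≤ m → m ^ (m + 1) < Nat.card V →
  (∀ l : ℕ, l.Prime → l ∣ Nat.card G → l ≠ p → l ≠ 2) →
  (∀ x y : G, (orderOf x).Prime → orderOf x ≠ p → (orderOf y).Prime → orderOf y ≠ p →
    orderOf x ≠ orderOf y → x * y = y * x → (col (orderOf x) ↔ col (orderOf y))) →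
  (∀ x : G, (orderOf x).Prime → orderOf x ≠ p → (col (orderOf x) ↔ col q) →
    Nat.card {v : V // ρ x v = v} ≤ m) →
  (∃ l : ℕ, l.Prime ∧ l ≠ p ∧ l ∣ Nat.card G ∧ ¬ (col l ↔ col q)) →
  ∃ a : ℕ, 0 < a ∧ a ≤ Nat.card V ∧
    ∀ l j : ℕ, l.Prime → l ≠ p → (col l ↔ col q) → l ^ j ∣ Nat.card G → l ^ j ∣ a

/-! ## D. Arithmetic and assembly -/

def ST_PPART : Prop := ∀ (lam k s p : ℕ), 1 ≤ lam → p.Prime → (k : ℤ) = (s : ℤ) ^ 2 + lam →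
  (∀ j : ℕ, ((p : ℤ) ^ j) ∣ (k : ℤ) + s → p ^ j ∣ 2 * lam) ∨
  ∀ j : ℕ, ((p : ℤ) ^ j) ∣ (k : ℤ) - s → p ^ j ∣ 2 * lam

def ST_DVD : Prop := ∀ (lam r k s p N a : ℕ) (α : ℤ), 1 ≤ lam → 1 ≤ r → 1 ≤ N → 1 ≤ a → 1 ≤ s →
  p.Prime → (k : ℤ) = (s : ℤ) ^ 2 + lam → (α = s ∨ α = -s) →
  (lam : ℤ) * (r * N) = (k - s) * (k + s) →
  (∀ j : ℕ, ((p : ℤ) ^ j) ∣ (k : ℤ) + α → p ^ j ∣ 2 * lam) →
  (∀ l j : ℕ, l.Prime → l ≠ p → (l : ℤ) ∣ k + α → l ^ j ∣ N → l ^ j ∣ a) →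
  (k : ℤ) + α ∣ ((2 * lam * (lam * r) * a : ℕ) : ℤ)

/-- the data used for solvable groups -/
structure Sgn (G : Type u) [Group G] [Finite G] (lam r k s p : ℕ) (al : ℕ → ℤ) : Prop where
  hk : (k : ℤ) = (s : ℤ) ^ 2 + lam
  hs : 1 ≤ s
  par : (lam : ℤ) * (r * Nat.card G) = (k - s) * (k + s)
  pp : p.Prime
  p2 : p ≤ 2 * lam
  good : ∀ q : ℕ, q.Prime → q ∣ Nat.card G → q ≠ p → ¬ q ∣ 2 * lam ∧ (al q = s ∨ al q = -s) ∧
    (q : ℤ) ∣ k - al q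
  cent : ∀ g : G, (orderOf g).Prime → orderOf g ≠ p →
    ((Nat.card (Subgroup.centralizer {g}) : ℕ) : ℤ) ∣ k - al (orderOf g)
  nor : ∀ q : ℕ, q.Prime → q ≠ p → ∀ Q : Subgroup G, Q.Normal → IsPGroup q Q → Q = ⊥

def ST_SOLV : Prop := ∀ lam R : ℕ, 1 ≤ lam → ∃ K : ℕ, ∀ (G : Type u) [Group G] [Finite G]
  [Group.IsSolvable G] (r k s p : ℕ) (al : ℕ → ℤ), 1 ≤ r → r ≤ R → Sgn G lam r k s p al → k ≤ K

end Pool.Agent.Helper17.CR
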