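import Pool.Agent.Helper17.CR.Solv
import Pool.Agent.Helper17.CR.Main
import Pool.Agent.Helper24.CR.WT
import Pool.Agent.Helper27.CR.CONG
import Pool.Agent.Helper27.CR.FIB
import Pool.Agent.Helper27.CR.INJ
import Pool.Agent.Helper27.CR.MULT
import Pool.Agent.Helper28.CR.CYC
import Pool.Agent.Helper30.CR.NUMQ
import Pool.Agent.Helper33.CR.MOD
import Pool.Agent.Helper38.CR.FRAT
import Pool.Agent.Helper39.CR.CENT
import Pool.Agent.Helper39.CR.FIXQ
import Pool.Agent.Helper39.CR.NILC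
import Pool.Agent.Helper41.CR.CASEB
import Pool.Agent.Helper41.CR.NC
import Pool.Agent.Helper44.CR.COMM
import Pool.Agent.Helper44.CR.EQV
import Pool.Agent.Helper44.CR.TR
import Pool.Agent.Helper48.CR.CORE
import Pool.Agent.Helper48.CR.RANK
import Pool.Agent.Helper63.CR.DVD
import Pool.Agent.Helper64.CR.MIN
import Pool.Agent.Helper64.CR.RED
import Pool.Agent.Helper67.CR.ABQ
import Pool.Agent.Helper67.CR.OP
import Pool.Agent.Helper67.CR.PAR
import Pool.Agent.Helper67.CR.ROOT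
import Pool.Agent.Helper7.CR.PPART
import Pool.Agent.Helper74.CR.FITC
import Pool.Agent.Helper74.CR.POW
import Pool.Agent.Helper79.CR.DES
import Pool.Agent.Helper79.CR.PHI
import Pool.Agent.Helper80.CR.CASEA
import Pool.Agent.Helper82.CR.LIFT
import Pool.Agent.Helper82.CR.LIN
import Pool.Agent.Helper82.CR.ORD
import Pool.Agent.Helper85.CR.CORE0
import Pool.Agent.Helper90.CR.BIG

set_option autoImplicit false

namespace Pool.Agent.Helper17.CR

universe u

theorem fin_CORE0 : ST_CORE0.{u} :=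
  Pool.Agent.Helper85.CR.st_CORE0 Pool.Agent.Helper79.CR.st_PHI Pool.Agent.Helper27.CR.st_MULT
    Pool.Agent.Helper27.CR.st_INJ
    (Pool.Agent.Helper44.CR.st_TR Pool.Agent.Helper67.CR.st_ROOT Pool.Agent.Helper48.CR.st_RANK
      Pool.Agent.Helper27.CR.st_CONG Pool.Agent.Helper27.CR.st_INJ)

theorem fin_DES : ST_DES.{u} :=
  Pool.Agent.Helper79.CR.st_DES
    (Pool.Agent.Helper48.CR.st_CORE Pool.Agent.Helper27.CR.st_FIB fin_CORE0)
    Pool.Agent.Helper44.CR.st_COMM Pool.Agent.Helper64.CR.st_RED Pool.Agent.Helper74.CR.st_POW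
    Pool.Agent.Helper67.CR.st_PAR Pool.Agent.Helper44.CR.st_EQV

theorem fin_CASEB : ST_CASEB.{u} :=
  Pool.Agent.Helper41.CR.st_CASEB Pool.Agent.Helper41.CR.st_NC Pool.Agent.Helper28.CR.st_CYC
    Pool.Agent.Helper39.CR.st_NILC Pool.Agent.Helper74.CR.st_MAXC Pool.Agent.Helper67.CR.st_ABQ
    Pool.Agent.Helper82.CR.st_ORD Pool.Agent.Helper82.CR.st_LIN

theorem fin_SOLV : ST_SOLV.{u} :=
  solv Pool.Agent.Helper90.CR.st_BIG Pool.Agent.Helper67.CR.st_OP
    (Pool.Agent.Helper33.CR.st_MOD Pool.Agent.Helper74.CR.st_FITC Pool.Agent.Helper38.CR.st_FRAT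
      Pool.Agent.Helper39.CR.st_FIXQ)
    Pool.Agent.Helper82.CR.st_LIFT Pool.Agent.Helper64.CR.st_MIN
    (Pool.Agent.Helper80.CR.st_CASEA st_WT) fin_CASEB Pool.Agent.Helper7.CR.st_PPART st_DVD

end Pool.Agent.Helper17.CR
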