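import Pool.Agent.Helper17.CR.Stmts

/-! Assembly of the solvable case. -/

set_option autoImplicit false

namespace Pool.Agent.Helper17.CR

open Finset

universe u

theorem solv_log (C d k : ℕ) (h1 : 2 ^ d ≤ k ^ 2) (h2 : k ≤ C * d) : k ≤ C * (75 * C ^ 2 + 5) := by
  rcases Nat.eq_zero_or_pos (d / 3) with h0 | h0
  · have hd : d ≤ 2 := by omega
    refine h2.trans (Nat.mul_le_mul_left _ (by nlinarith))
  · set e := d / 3 with he
    have hd : d ≤ 3 * e + 2 := by omega
    have hd' : 3 * e ≤ d := by omega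
    have h3 : e ^ 3 < C ^ 2 * (25 * e ^ 2) := by
      calc e ^ 3 < (2 ^ e) ^ 3 := Nat.pow_lt_pow_left Nat.lt_two_pow_self (by norm_num)
        _ = 2 ^ (3 * e) := by rw [← pow_mul, mul_comm]
        _ ≤ 2 ^ d := Nat.pow_le_pow_right (by norm_num) hd'
        _ ≤ k ^ 2 := h1
        _ ≤ (C * d) ^ 2 := Nat.pow_le_pow_left h2 2
        _ = C ^ 2 * d ^ 2 := by ring
        _ ≤ C ^ 2 * (3 * e + 2) ^ 2 := Nat.mul_le_mul_left _ (Nat.pow_le_pow_left hd 2)
        _ ≤ C ^ 2 * (25 * e ^ 2) := Nat.mul_le_mul_left _ (by nlinarith)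
    have h4 : e < 25 * C ^ 2 := by
      have h5 : e * e ^ 2 < (25 * C ^ 2) * e ^ 2 := by
        calc e * e ^ 2 = e ^ 3 := by ring
          _ < C ^ 2 * (25 * e ^ 2) := h3
          _ = (25 * C ^ 2) * e ^ 2 := by ring
      exact Nat.lt_of_mul_lt_mul_right h5
    refine h2.trans (Nat.mul_le_mul_left _ (by omega))

/-- an element of order `q` in the subgroup generated by an element of a `q`-group -/
theorem solv_order {G : Type u} [Group G] [Finite G] {q : ℕ} (hq : q.Prime) (M : Subgroup G)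
    (hM : IsPGroup q M) (x : G) (hx : x ∈ M) (hx1 : x ≠ 1) :
    ∃ j : ℕ, orderOf (x ^ j) = q ∧ x ^ j ∈ M := by
  have : Fact q.Prime := ⟨hq⟩
  obtain ⟨i, hi⟩ := (IsPGroup.iff_orderOf.mp hM) ⟨x, hx⟩
  rw [Subgroup.orderOf_mk] at hi
  have hi0 : i ≠ 0 := by
    rintro rfl
    rw [pow_zero, orderOf_eq_one_iff] at hi
    exact hx1 hi
  obtain ⟨i', rfl⟩ := Nat.exists_eq_succ_of_ne_zero hi0
  refine ⟨q ^ i', ?_, M.pow_mem hx _⟩
  have h1 : orderOf x / q ^ i' = q := by
    rw [hi, Nat.succ_eq_add_one, pow_succ]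
    exact Nat.mul_div_cancel_left _ (pow_pos hq.pos _)
  rw [orderOf_pow_of_dvd (pow_pos hq.pos _).ne' (by rw [hi]; exact pow_dvd_pow _ (Nat.le_succ _)), h1]

theorem solv (hBIG : ST_BIG) (hOP : ST_OP.{u}) (hMOD : ST_MOD.{u}) (hLIFT : ST_LIFT.{u})
    (hMIN : ST_MIN.{u}) (hA : ST_CASEA.{u}) (hB : ST_CASEB.{u}) (hPP : ST_PPART)
    (hDVD : ST_DVD) : ST_SOLV.{u} := by
  intro lam R hlam
  set m := 2 * lam with hm
  set V0 := m ^ (m + 1) with hV0
  set B0 := 12 * lam ^ 3 * R + 2 * lam + R + 3 with hB0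
  obtain ⟨S, hS⟩ := hBIG lam B0 hlam
  set C := 4 * lam ^ 2 * R with hC
  refine ⟨(S ^ 2 + lam) + C * (75 * C ^ 2 + 5) + 4 * lam ^ 2 * R * V0 ^ V0, ?_⟩
  intro G _ _ _ r k s p al hr1 hrR hG
  by_cases hs : s ≤ S
  · have h1 : k = s ^ 2 + lam := by exact_mod_cast hG.hk
    have h2 : s ^ 2 ≤ S ^ 2 := Nat.pow_le_pow_left hs 2
    omega
  push Not at hs
  obtain ⟨⟨p1, hp1, hB1, hd1⟩, ⟨p2, hp2, hB2, hd2⟩⟩ := hS s hs
  have hp := hG.pp
  have hFact : Fact p.Prime := ⟨hp⟩
  have hk := hG.hk
  have hs1 : (1 : ℤ) ≤ s := by exact_mod_cast hG.hs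
  have hlam1 : (1 : ℤ) ≤ lam := by exact_mod_cast hlam
  have hk2s : 2 * (s : ℤ) ≤ k := by rw [hk]; nlinarith [sq_nonneg ((s : ℤ) - 1)]
  have hkps : (s : ℤ) ^ 2 + s + lam = k + s := by rw [hk]; ring
  have hkms : (s : ℤ) ^ 2 - s + lam = k - s := by rw [hk]; ring
  rw [hkps] at hd1
  rw [hkms] at hd2
  have hG0 : 0 < Nat.card G := Nat.card_pos
  -- good primes
  have hcop : ∀ l : ℕ, ¬ l ∣ 2 * lam → ¬ ((l : ℤ) ∣ (k : ℤ) - s ∧ (l : ℤ) ∣ (k : ℤ) + s) := by
    rintro l hl ⟨h1, h2⟩
    apply hl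
    have h3 : (l : ℤ) ∣ ((2 * lam : ℕ) : ℤ) := by
      have e : ((2 * lam : ℕ) : ℤ) = ((k : ℤ) - s) * (1 + s) + ((k : ℤ) + s) * (1 - s) := by
        push_cast
        have : (lam : ℤ) = k - s ^ 2 := by rw [hk]; ring
        rw [this]; ring
      rw [e]
      exact dvd_add (h1.mul_right _) (h2.mul_right _)
    exact_mod_cast h3
  have hbig : ∀ l : ℕ, l.Prime → B0 < l → ((l : ℤ) ∣ (k : ℤ) + s ∨ (l : ℤ) ∣ (k : ℤ) - s) →
      l ∣ Nat.card G ∧ l ≠ p := by
    intro l hl hlB hdiv
    have h1 : (l : ℤ) ∣ (((lam * (r * Nat.card G) : ℕ)) : ℤ) := by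
      push_cast
      rw [hG.par]
      rcases hdiv with h | h
      · exact h.mul_left _
      · exact h.mul_right _
    have h2 : l ∣ lam * (r * Nat.card G) := by exact_mod_cast h1
    have hl2 : 2 * lam < l := by
      have : 2 * lam ≤ B0 := by rw [hB0]; omega
      omega
    have hlR : R < l := by
      have : R ≤ B0 := by rw [hB0]; omega
      omega
    refine ⟨?_, ?_⟩
    · rcases (hl.dvd_mul).mp h2 with h | h
      · exact absurd (Nat.le_of_dvd (by omega) h) (by omega)
      · rcases (hl.dvd_mul).mp h with h | h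
        · exact absurd (Nat.le_of_dvd (by omega) h) (by omega)
        · exact h
    · have := hG.p2
      omega
  obtain ⟨F, hFn, hFp, hFmax⟩ := hOP G p hp
  have := hFn
  obtain ⟨V, iV1, iV2, iV3, ρ, hker, hVF, hfix⟩ := hMOD G p F hFn hFp hFmax hG.nor
  obtain ⟨f, hf⟩ := (IsPGroup.iff_card).mp hFp
  have hcard : Nat.card G = Nat.card (G ⧸ F) * Nat.card F :=
    Subgroup.card_eq_card_quotient_mul_card_subgroup F
  have hpart : ∀ l j : ℕ, l.Prime → l ≠ p → l ^ j ∣ Nat.card G → l ^ j ∣ Nat.card (G ⧸ F) := by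
    intro l j hl hlp h
    rw [hcard, hf] at h
    exact Nat.Coprime.dvd_of_dvd_mul_right (Nat.Coprime.pow _ _ ((Nat.coprime_primes hl hp).mpr hlp)) h
  have hquot : ∀ l : ℕ, l ∣ Nat.card (G ⧸ F) → l ∣ Nat.card G := fun l h => by
    rw [hcard]; exact h.mul_right _
  obtain ⟨hp1G, hp1p⟩ := hbig p1 hp1 hB1 (Or.inl hd1)
  obtain ⟨hp2G, hp2p⟩ := hbig p2 hp2 hB2 (Or.inr hd2)
  have hnt : Nontrivial (G ⧸ F) := by
    rw [← Finite.one_lt_card_iff_nontrivial]
    have h1 : p1 ∣ Nat.card (G ⧸ F) := by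
      have := hpart p1 1 hp1 hp1p (by simpa using hp1G)
      simpa using this
    exact lt_of_lt_of_le hp1.one_lt (Nat.le_of_dvd Nat.card_pos h1)
  have hnop : ∀ N : Subgroup (G ⧸ F), N.Normal → IsPGroup p N → N = ⊥ := by
    intro N hN hNp
    have h1 : IsPGroup p (N.comap (QuotientGroup.mk' F)) := by
      apply hNp.comap_of_ker_isPGroup
      rw [QuotientGroup.ker_mk']
      exact hFp
    have h2 : N.comap (QuotientGroup.mk' F) ≤ F := hFmax _ (hN.comap _) h1
    have h3 : N = (N.comap (QuotientGroup.mk' F)).map (QuotientGroup.mk' F) :=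
      (Subgroup.map_comap_eq_self_of_surjective (QuotientGroup.mk'_surjective F) N).symm
    rw [h3, eq_bot_iff]
    have h4 : F.map (QuotientGroup.mk' F) = ⊥ := by
      rw [Subgroup.map_eq_bot_iff, QuotientGroup.ker_mk']
    rw [← h4]
    exact Subgroup.map_mono h2
  have : Group.IsSolvable (G ⧸ F) := inferInstance
  obtain ⟨q, M, hq, hqp, hMn, hMp, hM1, hMab⟩ := hMIN (G ⧸ F) p hnop
  set ρ' : (G ⧸ F) →* (V →ₗ[ZMod p] V) := QuotientGroup.lift F ρ (fun g hg => (hker g).2 hg) with hρ'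
  have hρ'mk : ∀ g : G, ρ' (g : G ⧸ F) = ρ g := fun g => rfl
  have hinj : Function.Injective ρ' := by
    rw [injective_iff_map_eq_one]
    intro x hx
    obtain ⟨g, rfl⟩ := QuotientGroup.mk_surjective x
    rw [hρ'mk, hker] at hx
    exact (QuotientGroup.eq_one_iff g).mpr hx
  -- the lifting facts
  obtain ⟨hL1, hL2⟩ := hLIFT G p F hp hFp
  have hgood : ∀ l : ℕ, l.Prime → l ∣ Nat.card G → l ≠ p → ∀ β : ℤ, (β = s ∨ β = -s) →
      (l : ℤ) ∣ k - β → al l = β := by
    intro l hl hlG hlp β hβ hdv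
    obtain ⟨h1, h2, h3⟩ := hG.good l hl hlG hlp
    by_contra hne
    apply hcop l h1
    rcases h2 with h2 | h2 <;> rcases hβ with h4 | h4
    · exact absurd (h2.trans h4.symm) hne
    · rw [h2] at h3; rw [h4, sub_neg_eq_add] at hdv; exact ⟨h3, hdv⟩
    · rw [h2, sub_neg_eq_add] at h3; rw [h4] at hdv; exact ⟨hdv, h3⟩
    · exact absurd (h2.trans h4.symm) hne
  have hcomm : ∀ x y : G ⧸ F, (orderOf x).Prime → orderOf x ≠ p → (orderOf y).Prime →
      orderOf y ≠ p → orderOf x ≠ orderOf y → x * y = y * x → al (orderOf x) = al (orderOf y) := by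
    intro x y hx hxp hy hyp hxy hc
    obtain ⟨g, h, hg, hh, hgh⟩ := hL2 x y hx hxp hy hyp hxy hc
    have h1 := hG.cent g (by rw [hg]; exact hx) (by rw [hg]; exact hxp)
    have h2 : orderOf h ∣ Nat.card (Subgroup.centralizer {g}) := by
      have h3 : h ∈ Subgroup.centralizer {g} := by
        rw [Subgroup.mem_centralizer_singleton_iff]
        exact hgh.symm
      have h4 := orderOf_dvd_natCard (⟨h, h3⟩ : Subgroup.centralizer {g})
      rwa [Subgroup.orderOf_mk] at h4
    have h3 : ((orderOf y : ℕ) : ℤ) ∣ k - al (orderOf x) := by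
      rw [← hh]
      rw [hg] at h1
      exact dvd_trans (by exact_mod_cast h2) h1
    have hyG : orderOf y ∣ Nat.card G := hquot _ (orderOf_dvd_natCard y)
    have hxG : orderOf x ∣ Nat.card G := hquot _ (orderOf_dvd_natCard x)
    exact (hgood _ hy hyG hyp _ (hG.good _ hx hxG hxp).2.1 h3).symm
  -- the prime q
  have hqG' : q ∣ Nat.card (G ⧸ F) := by
    have : Fact q.Prime := ⟨hq⟩
    obtain ⟨i, hi⟩ := (IsPGroup.iff_card).mp hMp
    have hi0 : i ≠ 0 := by
      rintro rfl
      rw [pow_zero] at hi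
      exact hM1 (Subgroup.card_eq_one.mp hi)
    exact (dvd_pow_self q hi0).trans (hi ▸ Subgroup.card_subgroup_dvd_card M)
  have hqG := hquot _ hqG'
  obtain ⟨hq2, hqal, hqdv⟩ := hG.good q hq hqG hqp
  set α := al q with hα
  have hαs : |α| = s := by
    rcases hqal with h | h
    · rw [h]; exact abs_of_nonneg (by omega)
    · rw [h, abs_neg]; exact abs_of_nonneg (by omega)
  have hα1 : -(s : ℤ) ≤ α ∧ α ≤ s := by
    rcases hqal with h | h <;> rw [h] <;> constructor <;> omega
  have hα2 : (-α = (s : ℤ) ∨ -α = -(s : ℤ)) := by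
    rcases hqal with h | h
    · right; rw [h]
    · left; rw [h]; ring
  have hαne : α ≠ -α := by
    intro h
    rcases hqal with h' | h' <;> omega
  have hprod : (lam : ℤ) * (r * Nat.card G) = (k - α) * (k + α) := by
    rw [hG.par]
    rcases hqal with h | h <;> rw [h] <;> ring
  have hAB : (∀ j : ℕ, ((p : ℤ) ^ j) ∣ (k : ℤ) + α → p ^ j ∣ 2 * lam) ∨
      (∀ j : ℕ, ((p : ℤ) ^ j) ∣ (k : ℤ) + -α → p ^ j ∣ 2 * lam) := by
    have h := hPP lam k s p hlam hp hk
    rcases hqal with h' | h'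
    · rw [h', ← sub_eq_add_neg]; exact h
    · rw [h', neg_neg, ← sub_eq_add_neg]; exact h.symm
  obtain ⟨lB, hlB, hlBB, hlBd⟩ : ∃ l : ℕ, l.Prime ∧ B0 < l ∧ (l : ℤ) ∣ (k : ℤ) + α := by
    rcases hqal with h | h
    · exact ⟨p1, hp1, hB1, by rw [h]; exact hd1⟩
    · exact ⟨p2, hp2, hB2, by rw [h, ← sub_eq_add_neg]; exact hd2⟩
  have hlBG : lB ∣ Nat.card G ∧ lB ≠ p := by
    apply hbig lB hlB hlBB
    rcases hqal with h | h
    · left; rw [← h]; exact hlBd
    · right; rw [h, ← sub_eq_add_neg] at hlBd; exact hlBd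
  have hGk : Nat.card G ≤ k ^ 2 := by
    have h1 : Nat.card G ≤ lam * (r * Nat.card G) := by
      calc Nat.card G = 1 * (1 * Nat.card G) := by ring
        _ ≤ lam * (r * Nat.card G) := Nat.mul_le_mul hlam (Nat.mul_le_mul_right _ hr1)
    have h2 : ((lam * (r * Nat.card G) : ℕ) : ℤ) ≤ (k : ℤ) ^ 2 := by
      push_cast
      rw [hG.par]
      nlinarith
    have h3 : lam * (r * Nat.card G) ≤ k ^ 2 := by exact_mod_cast h2
    exact h1.trans h3
  have hFG : Nat.card F ≤ Nat.card G := Nat.le_of_dvd hG0 (Subgroup.card_subgroup_dvd_card F)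
  have hR1 : 1 ≤ R := hr1.trans hrR
  rcases hAB with hcaseA | hcaseB
  · -- case A
    obtain ⟨d, hd0, hdV, hdl⟩ := hA (G ⧸ F) p V ρ' hinj q M hq hqp hMn hMp hM1 hMab
      (fun l => l ≠ p ∧ al l = -α) (by
        rintro g hg ⟨hgp, hgal⟩ x hx hgx
        by_contra hx1
        obtain ⟨j, hj, hjM⟩ := solv_order hq M hMp x hx hx1
        have hne : orderOf g ≠ orderOf (x ^ j) := by
          intro h
          rw [hj] at h
          rw [h] at hgal
          exact hαne hgal
        have hcx : g * x ^ j = x ^ j * g := ((show Commute g x from hgx).pow_right j).eq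
        have h1 := hcomm g (x ^ j) hg hgp (by rw [hj]; exact hq) (by rw [hj]; exact hqp) hne hcx
        rw [hgal, hj] at h1
        exact hαne h1.symm)
    have hdiv := hDVD lam r k s p (Nat.card G) d α hlam hr1 hG0 hd0 hG.hs hp hk hqal hG.par hcaseA
      (by
        intro l j hl hlp hlk hlj
        rcases Nat.eq_zero_or_pos j with rfl | hj
        · simp
        have hlG : l ∣ Nat.card G := (dvd_pow_self l hj.ne').trans hlj
        have hal : al l = -α := hgood l hl hlG hlp (-α) hα2 (by rw [sub_neg_eq_add]; exact hlk)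
        exact hdl l j hl ⟨hlp, hal⟩ (hpart l j hl hlp hlj))
    have hle : (k : ℤ) + α ≤ ((2 * lam * (lam * r) * d : ℕ) : ℤ) := by
      apply Int.le_of_dvd _ hdiv
      have : 0 < 2 * lam * (lam * r) * d := by positivity
      exact_mod_cast this
    have hkC : k ≤ C * d := by
      have h1 : ((2 * lam * (lam * r) * d : ℕ) : ℤ) ≤ ((2 * lam * (lam * R) * d : ℕ) : ℤ) := by
        have : 2 * lam * (lam * r) * d ≤ 2 * lam * (lam * R) * d := by gcongr
        exact_mod_cast this
      have h2 : (k : ℤ) ≤ ((C * d : ℕ) : ℤ) := by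
        have h3 : ((C * d : ℕ) : ℤ) = 2 * ((2 * lam * (lam * R) * d : ℕ) : ℤ) := by
          rw [hC]; push_cast; ring
        rw [h3]
        have := hα1.1
        omega
      exact_mod_cast h2
    have h2d : 2 ^ d ≤ k ^ 2 := by
      calc 2 ^ d ≤ p ^ d := Nat.pow_le_pow_left hp.two_le d
        _ ≤ Nat.card V := hdV
        _ ≤ Nat.card F := hVF
        _ ≤ Nat.card G := hFG
        _ ≤ k ^ 2 := hGk
    have := solv_log C d k h2d hkC
    omega
  · -- case B
    by_cases hVsmall : Nat.card V ≤ V0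
    · have hdiv := hDVD lam r k s p (Nat.card G) (Nat.card (G ⧸ F)) (-α) hlam hr1 hG0
        Nat.card_pos hG.hs hp hk hα2 hG.par hcaseB
        (by
          intro l j hl hlp _ hlj
          exact hpart l j hl hlp hlj)
      have hQV : Nat.card (G ⧸ F) ≤ V0 ^ V0 := by
        have h1 : Function.Injective (fun x : G ⧸ F => (fun v : V => ρ' x v)) := by
          intro x y hxy
          apply hinj
          exact LinearMap.ext fun v => congrFun hxy v
        have h2 : Nat.card (G ⧸ F) ≤ Nat.card (V → V) := Nat.card_le_card_of_injective _ h1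
        have h3 : Nat.card (V → V) = Nat.card V ^ Nat.card V := Nat.card_fun
        have hV0pos : 0 < V0 := by rw [hV0]; exact pow_pos (by omega) _
        calc Nat.card (G ⧸ F) ≤ Nat.card V ^ Nat.card V := h3 ▸ h2
          _ ≤ V0 ^ Nat.card V := Nat.pow_le_pow_left hVsmall _
          _ ≤ V0 ^ V0 := Nat.pow_le_pow_right hV0pos hVsmall
      have hle : (k : ℤ) + -α ≤ ((2 * lam * (lam * r) * Nat.card (G ⧸ F) : ℕ) : ℤ) := by
        apply Int.le_of_dvd _ hdiv
        have hc : 0 < Nat.card (G ⧸ F) := Nat.card_pos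
        have : 0 < 2 * lam * (lam * r) * Nat.card (G ⧸ F) := by positivity
        exact_mod_cast this
      have h1 : 2 * lam * (lam * r) * Nat.card (G ⧸ F) ≤ 2 * lam * (lam * R) * V0 ^ V0 := by
        gcongr
      have h2 : ((2 * lam * (lam * r) * Nat.card (G ⧸ F) : ℕ) : ℤ) ≤
          ((2 * lam * (lam * R) * V0 ^ V0 : ℕ) : ℤ) := by exact_mod_cast h1
      have h3 : (k : ℤ) ≤ ((4 * lam ^ 2 * R * V0 ^ V0 : ℕ) : ℤ) := by
        have h4 : ((4 * lam ^ 2 * R * V0 ^ V0 : ℕ) : ℤ) =
            2 * ((2 * lam * (lam * R) * V0 ^ V0 : ℕ) : ℤ) := by push_cast; ring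
        rw [h4]
        have := hα1.2
        omega
      have h4 : k ≤ 4 * lam ^ 2 * R * V0 ^ V0 := by exact_mod_cast h3
      omega
    · exfalso
      push Not at hVsmall
      obtain ⟨a, ha0, haV, hal⟩ := hB (G ⧸ F) p V ρ' hinj hnop q m M (fun l => al l = α) hq hqp
        hMn hMp hM1 hMab (by omega) hVsmall
        (by
          intro l hl hlQ hlp h2
          have h3 := (hG.good l hl (hquot _ hlQ) hlp).1
          rw [h2] at h3
          exact h3 (dvd_mul_right 2 lam))
        (by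
          intro x y hx hxp hy hyp hxy hc
          rw [hcomm x y hx hxp hy hyp hxy hc])
        (by
          intro x hx hxp hcol
          have halx : al (orderOf x) = α := hcol.mpr rfl
          obtain ⟨g, hg, hgx⟩ := hL1 x hx hxp
          have h1 := hfix g (by rw [hg]; exact hx) (by rw [hg]; exact hxp)
          rw [← hρ'mk, hgx] at h1
          refine h1.trans ?_
          have h2 := hG.cent g (by rw [hg]; exact hx) (by rw [hg]; exact hxp)
          rw [hg, halx] at h2
          have h3 : IsPGroup p (F ⊓ Subgroup.centralizer {g} : Subgroup G) :=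
            hFp.to_le inf_le_left
          obtain ⟨i, hi⟩ := (IsPGroup.iff_card).mp h3
          have h4 : Nat.card (F ⊓ Subgroup.centralizer {g} : Subgroup G) ∣
              Nat.card (Subgroup.centralizer {g}) := Subgroup.card_dvd_of_le inf_le_right
          rw [hi] at h4 ⊢
          have h5 : ((p : ℤ) ^ i) ∣ (k : ℤ) + -α := by
            rw [← sub_eq_add_neg]
            refine dvd_trans ?_ h2
            exact_mod_cast h4
          have h6 := hcaseB i h5
          exact Nat.le_of_dvd (by omega) h6)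
        ⟨lB, hlB, hlBG.2, by
          have := hpart lB 1 hlB hlBG.2 (by simpa using hlBG.1)
          simpa using this, by
          intro h
          have h1 : al lB = α := h.mpr rfl
          have h2 : al lB = -α := hgood lB hlB hlBG.1 hlBG.2 (-α) hα2
            (by rw [sub_neg_eq_add]; exact hlBd)
          exact hαne (h1.symm.trans h2)⟩
      have hdiv := hDVD lam r k s p (Nat.card G) a (-α) hlam hr1 hG0 ha0 hG.hs hp hk hα2 hG.par
        hcaseB
        (by
          intro l j hl hlp hlk hlj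
          rcases Nat.eq_zero_or_pos j with rfl | hj
          · simp
          have hlG : l ∣ Nat.card G := (dvd_pow_self l hj.ne').trans hlj
          have h1 : al l = α := hgood l hl hlG hlp α hqal (by rw [sub_eq_add_neg]; exact hlk)
          exact hal l j hl hlp (by simp [h1, ← hα]) (hpart l j hl hlp hlj))
      have hle : (k : ℤ) + -α ≤ ((2 * lam * (lam * r) * a : ℕ) : ℤ) := by
        apply Int.le_of_dvd _ hdiv
        have : 0 < 2 * lam * (lam * r) * a := by positivity
        exact_mod_cast this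
      -- |F| lB divides 2 lam (k + α)
      have hkm : (0 : ℤ) < k - α := by have := hα1.2; omega
      have hkp : (0 : ℤ) < k + α := by have := hα1.1; omega
      have hFdvd : ((Nat.card F : ℕ) : ℤ) ∣ 2 * lam * (k + α) := by
        have h1 : ((p : ℤ) ^ f) ∣ (k - α) * (k + α) := by
          rw [← hprod]
          have h2 : p ^ f ∣ lam * (r * Nat.card G) := by
            rw [hcard, hf]
            exact Dvd.dvd.mul_left (Dvd.dvd.mul_left (dvd_mul_left _ _) _) _
          exact_mod_cast h2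
        obtain ⟨i, u, hu, hiu⟩ : ∃ (i : ℕ) (u : ℤ), ¬ (p : ℤ) ∣ u ∧ k - α = (p : ℤ) ^ i * u := by
          have hpp : Prime (p : ℤ) := Nat.prime_iff_prime_int.mp hp
          obtain ⟨u, hu, hiu⟩ := (FiniteMultiplicity.of_prime_left hpp hkm.ne').exists_eq_pow_mul_and_not_dvd
          exact ⟨_, u, hiu, hu⟩
        have h3 : p ^ i ∣ 2 * lam := hcaseB i (by rw [← sub_eq_add_neg, hiu]; exact dvd_mul_right _ _)
        have h4 : ((p : ℤ) ^ f) ∣ (p : ℤ) ^ i * (k + α) := by
          have h5 : IsCoprime ((p : ℤ) ^ f) u := by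
            apply IsCoprime.pow_left
            rw [Prime.coprime_iff_not_dvd (Nat.prime_iff_prime_int.mp hp)]
            exact hu
          apply h5.dvd_of_dvd_mul_left
          have e : u * ((p : ℤ) ^ i * (k + α)) = (k - α) * (k + α) := by rw [hiu]; ring
          rw [e]
          exact h1
        rw [hf]
        push_cast
        refine h4.trans (mul_dvd_mul_right ?_ _)
        exact_mod_cast h3
      have hlBF : ((lB : ℤ) * (Nat.card F : ℕ)) ∣ 2 * lam * (k + α) := by
        apply IsCoprime.mul_dvd _ (hlBd.mul_left _) hFdvd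
        rw [hf]
        push_cast
        apply IsCoprime.pow_right
        have := (Nat.coprime_primes hlB hp).mpr hlBG.2
        exact Nat.isCoprime_iff_coprime.mpr this
      have hineq1 : (lB : ℤ) * (Nat.card F : ℕ) ≤ 2 * lam * (k + α) :=
        Int.le_of_dvd (by positivity) hlBF
      have hineq2 : (k : ℤ) - α ≤ 2 * lam * (lam * R) * (Nat.card F : ℕ) := by
        have h1 : ((2 * lam * (lam * r) * a : ℕ) : ℤ) ≤ ((2 * lam * (lam * R) * Nat.card F : ℕ) : ℤ) := by
          have : 2 * lam * (lam * r) * a ≤ 2 * lam * (lam * R) * Nat.card F := by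
            have := haV.trans hVF
            gcongr
          exact_mod_cast this
        push_cast at h1 hle ⊢
        linarith
      have hineq3 : (k : ℤ) + α ≤ 3 * (k - α) := by have := hα1.2; omega
      have hfin : (lB : ℤ) * (k - α) ≤ 12 * lam ^ 3 * R * (k - α) := by
        calc (lB : ℤ) * (k - α) ≤ lB * (2 * lam * (lam * R) * (Nat.card F : ℕ)) := by
              apply mul_le_mul_of_nonneg_left hineq2 (by positivity)
          _ = 2 * lam * (lam * R) * (lB * (Nat.card F : ℕ)) := by ring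
          _ ≤ 2 * lam * (lam * R) * (2 * lam * (k + α)) := by
              apply mul_le_mul_of_nonneg_left hineq1 (by positivity)
          _ = 4 * lam ^ 3 * R * (k + α) := by ring
          _ ≤ 4 * lam ^ 3 * R * (3 * (k - α)) := by
              apply mul_le_mul_of_nonneg_left hineq3 (by positivity)
          _ = _ := by ring
      have hfin2 : (lB : ℤ) ≤ 12 * lam ^ 3 * R := le_of_mul_le_mul_right hfin hkm
      have hfin3 : lB ≤ 12 * lam ^ 3 * R := by exact_mod_cast hfin2
      omega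

end Pool.Agent.Helper17.CR
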