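import Pool.Agent.Helper17.CR.Stmts2
import Pool.Agent.Helper17.CR.Solv

/-! Assembly of the solvable case, all indices. -/

set_option autoImplicit false

namespace Pool.Agent.Helper17.CR

open Finset

universe u

theorem solv2_bot {G : Type u} [Group G] [Finite G] {q : ℕ} (hq : q.Prime) (N : Subgroup G)
    (hN : IsPGroup q N) (h : ¬ q ∣ Nat.card G) : N = ⊥ := by
  have : Fact q.Prime := ⟨hq⟩
  obtain ⟨i, hi⟩ := (IsPGroup.iff_card).mp hN
  rcases Nat.eq_zero_or_pos i with h0 | h0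
  · rw [h0, pow_zero] at hi
    exact Subgroup.card_eq_one.mp hi
  · exact absurd ((dvd_pow_self q h0.ne').trans (hi ▸ Subgroup.card_subgroup_dvd_card N)) h

theorem solv2_dvd {G : Type u} [Group G] [Finite G] {q : ℕ} (hq : q.Prime) (N : Subgroup G)
    (hN : IsPGroup q N) (h : N ≠ ⊥) : q ∣ Nat.card G := by
  by_contra h'
  exact h (solv2_bot hq N hN h')

theorem solv2 (hBIG : ST_BIG) (hHALL : ST_HALL.{u}) (hMIN : ST_MIN.{u}) (hFITG : ST_FITG.{u})
    (hMOD : ST_MOD2.{u}) (hA : ST_CASEA2.{u}) (hSPF : ST_SPF) : ST_SOLV2.{u} := by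
  intro lam R hlam
  obtain ⟨S, hS⟩ := hBIG lam (2 * lam + R + 3) hlam
  obtain ⟨K0, hK0⟩ := hSPF lam R hlam
  refine ⟨(S ^ 2 + lam) + K0, ?_⟩
  intro G _ _ _ r k s al hr1 hrR hG
  by_cases hs : s ≤ S
  · have h1 : k = s ^ 2 + lam := by exact_mod_cast hG.hk
    have h2 : s ^ 2 ≤ S ^ 2 := Nat.pow_le_pow_left hs 2
    omega
  push Not at hs
  obtain ⟨⟨p1, hp1, hB1, hd1⟩, _⟩ := hS s hs
  have hk := hG.hk
  have hs1 : (1 : ℤ) ≤ s := by exact_mod_cast hG.hs
  have hlam1 : (1 : ℤ) ≤ lam := by exact_mod_cast hlam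
  have hk2s : 2 * (s : ℤ) ≤ k := by rw [hk]; nlinarith [sq_nonneg ((s : ℤ) - 1)]
  have hkps : (s : ℤ) ^ 2 + s + lam = k + s := by rw [hk]; ring
  rw [hkps] at hd1
  have hG0 : 0 < Nat.card G := Nat.card_pos
  have hcop : ∀ l : ℕ, ¬ l ∣ 2 * lam → ¬ ((l : ℤ) ∣ (k : ℤ) - s ∧ (l : ℤ) ∣ (k : ℤ) + s) := by
    rintro l hl ⟨h1, h2⟩
    apply hl
    have h3 : (l : ℤ) ∣ ((2 * lam : ℕ) : ℤ) := by
      have e : ((2 * lam : ℕ) : ℤ) = ((k : ℤ) - s) * (1 + s) + ((k : ℤ) + s) * (1 - s) := by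
        push_cast
        have : (lam : ℤ) = k - s ^ 2 := by rw [hk]; ring
        rw [this]; ring
      rw [e]
      exact dvd_add (h1.mul_right _) (h2.mul_right _)
    exact_mod_cast h3
  have hp1G : p1 ∣ Nat.card G := by
    have h1 : (p1 : ℤ) ∣ (((lam * (r * Nat.card G) : ℕ)) : ℤ) := by
      push_cast
      rw [hG.par]
      exact hd1.mul_left _
    have h2 : p1 ∣ lam * (r * Nat.card G) := by exact_mod_cast h1
    rcases (hp1.dvd_mul).mp h2 with h | h
    · exact absurd (Nat.le_of_dvd (by omega) h) (by omega)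
    · rcases (hp1.dvd_mul).mp h with h | h
      · exact absurd (Nat.le_of_dvd (by omega) h) (by omega)
      · exact h
  have hp12 : ¬ p1 ∣ 2 * lam := fun h => absurd (Nat.le_of_dvd (by omega) h) (by omega)
  -- the Hall subgroup
  obtain ⟨K, hK1, hK2⟩ := hHALL G (fun l => ¬ l ∣ 2 * lam)
  have hp1K : p1 ∣ Nat.card K := by
    have := hK2 p1 1 hp1 hp12 (by rwa [pow_one])
    rwa [pow_one] at this
  have hnt : Nontrivial K := by
    rw [← Finite.one_lt_card_iff_nontrivial]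
    exact lt_of_lt_of_le hp1.one_lt (Nat.le_of_dvd Nat.card_pos hp1K)
  have hsolK : Group.IsSolvable K := inferInstance
  obtain ⟨q, M, hq, hq2, hMn, hMp, hM1, hMab⟩ := hMIN K 2 (by
    intro N _ hN2
    exact solv2_bot Nat.prime_two N hN2 (fun h => hK1 2 Nat.prime_two h (dvd_mul_right 2 lam)))
  have hqK : q ∣ Nat.card K := solv2_dvd hq M hMp hM1
  have hqlam : ¬ q ∣ 2 * lam := hK1 q hq hqK
  have hqG : q ∣ Nat.card G := hqK.trans (Subgroup.card_subgroup_dvd_card K)
  obtain ⟨hqal, hqdv⟩ := hG.good q hq hqG hqlam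
  set α := al q with hα
  have hαne : α ≠ -α := by
    intro h
    rcases hqal with h' | h' <;> omega
  have hα2 : (-α = (s : ℤ) ∨ -α = -(s : ℤ)) := by
    rcases hqal with h | h
    · right; rw [h]
    · left; rw [h]; ring
  have hcop2 : ∀ l : ℕ, ¬ l ∣ 2 * lam → (l : ℤ) ∣ k - α → (l : ℤ) ∣ k + α → False := by
    intro l hl h1 h2
    apply hcop l hl
    rcases hqal with h | h
    · rw [h] at h1 h2; exact ⟨h1, h2⟩
    · rw [h, sub_neg_eq_add] at h1
      rw [h, ← sub_eq_add_neg] at h2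
      exact ⟨h2, h1⟩
  -- an element of order q
  obtain ⟨x0, hx0, hx01⟩ : ∃ x ∈ M, x ≠ 1 := by
    by_contra hcon
    push Not at hcon
    exact hM1 ((Subgroup.eq_bot_iff_forall M).mpr hcon)
  obtain ⟨j0, hj0, hj0M⟩ := solv_order hq M hMp x0 hx0 hx01
  set x : K := x0 ^ j0 with hx
  have hxord : orderOf (x : G) = q := by rw [Subgroup.orderOf_coe, hj0]
  obtain ⟨p, P, hp, hPn, hPp, y, hyP, hxy⟩ := hFITG G (x : G) (by rw [hxord]; exact hq) (by
    intro N hN hN'
    rw [hxord] at hN'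
    exact hG.nor q hq hqlam N hN hN')
  have hplam : p ∣ 2 * lam := by
    by_contra hcon
    have hbot := hG.nor p hp hcon P hPn hPp
    rw [hbot, Subgroup.mem_bot] at hyP
    exact hxy (by rw [hyP, mul_one, one_mul])
  have hqp : q ≠ p := fun h => hqlam (h ▸ hplam)
  have hFact : Fact p.Prime := ⟨hp⟩
  obtain ⟨V, iV1, iV2, iV3, ρ, hVP, hρ⟩ := hMOD G p P hPn hPp
  have hρx : ρ (x : G) ≠ 1 := fun h =>
    hxy (hρ (x : G) (by rw [hxord]; exact hq) (by rw [hxord]; exact hqp) h y hyP)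
  obtain ⟨d, hd0, hdV, hdl⟩ := hA K p V (ρ.comp K.subtype) q M hq hqp hMn hMp
    ⟨x, hj0M, hρx⟩ hMab (fun l => ¬ l ∣ 2 * lam ∧ al l = -α) (by
      rintro g hg ⟨hg2, hgal⟩ z hz hgz
      by_contra hz1
      obtain ⟨j, hj, hjM⟩ := solv_order hq M hMp z hz hz1
      have hcz : g * z ^ j = z ^ j * g := ((show Commute g z from hgz).pow_right j).eq
      have hgo : orderOf (g : G) = orderOf g := Subgroup.orderOf_coe g
      have h1 := hG.cent (g : G) (by rw [hgo]; exact hg) (by rw [hgo]; exact hg2)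
      have h2 : orderOf ((z ^ j : K) : G) ∣ Nat.card (Subgroup.centralizer {(g : G)}) := by
        have h3 : ((z ^ j : K) : G) ∈ Subgroup.centralizer {(g : G)} := by
          rw [Subgroup.mem_centralizer_singleton_iff]
          have := congrArg (Subtype.val) hcz
          rw [Subgroup.coe_mul, Subgroup.coe_mul] at this
          exact this.symm
        have h4 := orderOf_dvd_natCard (⟨_, h3⟩ : Subgroup.centralizer {(g : G)})
        rwa [Subgroup.orderOf_mk] at h4
      rw [Subgroup.orderOf_coe, hj] at h2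
      rw [hgo, hgal, sub_neg_eq_add] at h1
      have h3 : (q : ℤ) ∣ k + α := dvd_trans (by exact_mod_cast h2) h1
      exact hcop2 q hqlam hqdv h3)
  have hGk : Nat.card G ≤ k ^ 2 := by
    have h1 : Nat.card G ≤ lam * (r * Nat.card G) := by
      calc Nat.card G = 1 * (1 * Nat.card G) := by ring
        _ ≤ lam * (r * Nat.card G) := Nat.mul_le_mul hlam (Nat.mul_le_mul_right _ hr1)
    have h2 : ((lam * (r * Nat.card G) : ℕ) : ℤ) ≤ (k : ℤ) ^ 2 := by
      push_cast
      rw [hG.par]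
      nlinarith
    have h3 : lam * (r * Nat.card G) ≤ k ^ 2 := by exact_mod_cast h2
    exact h1.trans h3
  have hPG : Nat.card P ≤ Nat.card G := Nat.le_of_dvd hG0 (Subgroup.card_subgroup_dvd_card P)
  have h2d : 2 ^ d ≤ k ^ 2 := by
    calc 2 ^ d ≤ p ^ d := Nat.pow_le_pow_left hp.two_le d
      _ ≤ Nat.card V := hdV
      _ ≤ Nat.card P := hVP
      _ ≤ Nat.card G := hPG
      _ ≤ k ^ 2 := hGk
  have hfin : k ≤ K0 := by
    apply hK0 r k s d α hr1 hrR hd0 hk hqal h2d
    intro l j hl hl2 hlj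
    rcases Nat.eq_zero_or_pos j with rfl | hj
    · simp
    have h1 : (l : ℤ) ∣ k + α := (dvd_pow_self (l : ℤ) hj.ne').trans hlj
    have hprod : (lam : ℤ) * (r * Nat.card G) = (k - α) * (k + α) := by
      rw [hG.par]
      rcases hqal with h | h <;> rw [h] <;> ring
    have h2 : l ^ j ∣ lam * (r * Nat.card G) := by
      have : ((l : ℤ) ^ j) ∣ (lam : ℤ) * (r * Nat.card G) := by
        rw [hprod]; exact hlj.mul_left _
      exact_mod_cast this
    have h3 : l ^ j ∣ r * Nat.card G := by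
      apply Nat.Coprime.dvd_of_dvd_mul_left _ h2
      apply Nat.Coprime.pow_left
      rw [hl.coprime_iff_not_dvd]
      exact fun h => hl2 (h.mul_left 2)
    obtain ⟨y1, z1, hy1, hz1, hyz⟩ := (Nat.dvd_mul).mp h3
    have hz2 : z1 ∣ l ^ j := ⟨y1, by rw [← hyz, mul_comm]⟩
    obtain ⟨b, _, rfl⟩ := (Nat.dvd_prime_pow hl).mp hz2
    rw [← hyz]
    apply Nat.mul_dvd_mul hy1
    rcases Nat.eq_zero_or_pos b with rfl | hb
    · simp
    have hlG : l ∣ Nat.card G := (dvd_pow_self l hb.ne').trans hz1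
    obtain ⟨g1, g2⟩ := hG.good l hl hlG hl2
    have hal : al l = -α := by
      by_contra hne
      have h5 : al l = α := by
        rcases g1 with g | g <;> rcases hqal with g' | g'
        · rw [g, g']
        · exact absurd (by rw [g, g', neg_neg]) hne
        · exact absurd (by rw [g, g']) hne
        · rw [g, g']
      rw [h5] at g2
      exact hcop2 l hl2 g2 h1
    exact hdl l b hl ⟨hl2, hal⟩ (hK2 l b hl hl2 hz1)
  omega

end Pool.Agent.Helper17.CR
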