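import Pool.Agent.Helper17.CR.Stmts2
import Pool.Agent.Helper17.CR.Main
import Pool.Agent.Helper17.CR.Solv2

/-! Assembly of the main theorem for all solvable groups. -/

set_option autoImplicit false

namespace Pool.Agent.Helper17.CR

open Finset

universe u

theorem main_group2 (hN : ST_NUMQ.{u}) (hC : ST_CENT.{u}) (hS : ST_SOLV2.{u}) (lam R : ℕ)
    (hlam : 1 ≤ lam) : ∃ K : ℕ, ∀ (H : Type u) [Group H] [Finite H] (r k : ℕ) (a : H → ℕ),
    1 ≤ r → r ≤ R → Arith H lam r k a → Group.IsSolvable H → k ≤ K := by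
  obtain ⟨K2, hK2⟩ := hS lam R hlam
  obtain ⟨K3, hK3⟩ := main_smooth lam (2 * lam + R) hlam
  refine ⟨((5 * lam * R) ^ 2 + lam) + K2 + K3, ?_⟩
  intro H _ _ r k a hr1 hrR hA hsol
  have hH0 : 0 < Nat.card H := Nat.card_pos
  have hNbound : ∀ q : ℕ, q.Prime → ¬ q ∣ 2 * lam → (∃ Q : Subgroup H, Q.Normal ∧ IsPGroup q Q ∧
      Q ≠ ⊥) → k ≤ ((5 * lam * R) ^ 2 + lam) + K2 + K3 := by
    rintro q hq hq2 ⟨Q, hQ1, hQ2, hQ3⟩
    have h1 := hN H lam r k a hlam hr1 hA q hq hq2 Q hQ1 hQ2 hQ3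
    have h2 : (5 * lam * r) ^ 2 ≤ (5 * lam * R) ^ 2 :=
      Nat.pow_le_pow_left (Nat.mul_le_mul_left _ hrR) 2
    omega
  have hpar : (k : ℤ) ^ 2 = k - lam + lam * ((r * Nat.card H : ℕ) : ℤ) := by
    rw [hA.par]; push_cast; ring
  have hSm : (∀ p : ℕ, p.Prime → p ∣ Nat.card H → p ≤ 2 * lam) →
      k ≤ ((5 * lam * R) ^ 2 + lam) + K2 + K3 := by
    intro h
    have h1 := hK3 k (r * Nat.card H) hpar (by
      intro p hp hdv
      rcases (hp.dvd_mul).mp hdv with h' | h'
      · have := Nat.le_of_dvd (by omega) h'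
        omega
      · have := h p hp h'
        omega)
    omega
  by_cases hnor : ∃ q : ℕ, q.Prime ∧ ¬ q ∣ 2 * lam ∧ ∃ Q : Subgroup H, Q.Normal ∧ IsPGroup q Q ∧
      Q ≠ ⊥
  · obtain ⟨q, hq, hqp, hQ⟩ := hnor
    exact hNbound q hq hqp hQ
  push Not at hnor
  by_cases hall : ∀ q : ℕ, q.Prime → q ∣ Nat.card H → q ∣ 2 * lam
  · apply hSm
    intro p hp hdv
    exact Nat.le_of_dvd (by omega) (hall p hp hdv)
  push Not at hall
  obtain ⟨q0, hq0, hq0H, hq0p⟩ := hall
  have hcent : ∀ g : H, (orderOf g).Prime → ¬ orderOf g ∣ 2 * lam → ∃ α : ℤ,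
      α ^ 2 = (k : ℤ) - lam ∧ ((orderOf g : ℕ) : ℤ) ∣ k - α ∧
      ((Nat.card (Subgroup.centralizer {g}) : ℕ) : ℤ) ∣ k - α := fun g hg hgp =>
    hC H lam r k a hA g hg hgp
  have hcauchy : ∀ q : ℕ, q.Prime → q ∣ Nat.card H → ∃ g : H, orderOf g = q := by
    intro q hq hqH
    have : Fact q.Prime := ⟨hq⟩
    exact exists_prime_orderOf_dvd_card' q hqH
  obtain ⟨g0, hg0⟩ := hcauchy q0 hq0 hq0H
  obtain ⟨α0, hα0, _, _⟩ := hcent g0 (by rw [hg0]; exact hq0) (by rw [hg0]; exact hq0p)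
  set s : ℕ := α0.natAbs with hs
  have hs2 : (s : ℤ) ^ 2 = (k : ℤ) - lam := by rw [hs, Int.natAbs_sq, hα0]
  have hlt := hA.lt
  have hs1 : 1 ≤ s := by
    rcases Nat.eq_zero_or_pos s with h0 | h0
    · rw [h0] at hs2
      push_cast at hs2
      omega
    · exact h0
  have hroot : ∀ α : ℤ, α ^ 2 = (k : ℤ) - lam → α = s ∨ α = -s := by
    intro α hα
    have h1 : α ^ 2 = (s : ℤ) ^ 2 := by rw [hα, hs2]
    exact sq_eq_sq_iff_eq_or_eq_neg.mp h1
  have huni : ∀ q : ℕ, ¬ q ∣ 2 * lam → ∀ α β : ℤ, α ^ 2 = (k : ℤ) - lam → β ^ 2 = (k : ℤ) - lam →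
      (q : ℤ) ∣ k - α → (q : ℤ) ∣ k - β → α = β := by
    intro q hq α β hα hβ h1 h2
    by_contra hne
    have h3 : α = -β := by
      rcases hroot α hα with h | h <;> rcases hroot β hβ with h' | h'
      · exact absurd (h.trans h'.symm) hne
      · rw [h, h', neg_neg]
      · rw [h, h']
      · exact absurd (h.trans h'.symm) hne
    apply hq
    have h4 : (q : ℤ) ∣ ((2 * lam : ℕ) : ℤ) := by
      have e : ((2 * lam : ℕ) : ℤ) = (k - α) * (1 - β) + (k - β) * (1 + β) := by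
        push_cast
        have e1 : (lam : ℤ) = k - β ^ 2 := by rw [hβ]; ring
        rw [e1, h3]; ring
      rw [e]
      exact dvd_add (h1.mul_right _) (h2.mul_right _)
    exact_mod_cast h4
  have hal : ∀ q : ℕ, ∃ α : ℤ, (q.Prime → q ∣ Nat.card H → ¬ q ∣ 2 * lam →
      α ^ 2 = (k : ℤ) - lam ∧ (q : ℤ) ∣ k - α) := by
    intro q
    by_cases h : q.Prime ∧ q ∣ Nat.card H ∧ ¬ q ∣ 2 * lam
    · obtain ⟨h1, h2, h3⟩ := h
      obtain ⟨g, hg⟩ := hcauchy q h1 h2
      obtain ⟨α, hα, hα', _⟩ := hcent g (by rw [hg]; exact h1) (by rw [hg]; exact h3)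
      rw [hg] at hα'
      exact ⟨α, fun _ _ _ => ⟨hα, hα'⟩⟩
    · exact ⟨0, fun h1 h2 h3 => absurd ⟨h1, h2, h3⟩ h⟩
  choose al hal using hal
  have hSgn : Sgn2 H lam r k s al := by
    refine ⟨?_, hs1, ?_, ?_, ?_, ?_⟩
    · rw [hs2]; ring
    · have h1 := hA.par
      have : ((k : ℤ) - s) * (k + s) = k ^ 2 - s ^ 2 := by ring
      rw [this, hs2, h1]; ring
    · intro q hq hqH hqp
      obtain ⟨h1, h2⟩ := hal q hq hqH hqp
      exact ⟨hroot _ h1, h2⟩
    · intro g hg hgp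
      obtain ⟨α, hα, hα', hα''⟩ := hcent g hg hgp
      obtain ⟨h1, h2⟩ := hal _ hg (orderOf_dvd_natCard g) hgp
      rw [huni _ hgp _ _ h1 hα h2 hα']
      exact hα''
    · intro q hq hqp Q hQ1 hQ2
      exact hnor q hq hqp Q hQ1 hQ2
  have := hK2 H r k s al hr1 hrR hSgn
  omega

theorem main2 (hD : ST_DES.{u}) (hN : ST_NUMQ.{u}) (hC : ST_CENT.{u})
    (hS : ST_SOLV2.{u}) (lam R : ℕ) (hlam : 1 ≤ lam) : ∃ K : ℕ, ∀ (X : Type u) [Fintype X]
    [DecidableEq X] (blocks : Finset (Finset X)) (k : ℕ) (θ : X → Finset X) (σ : X → X)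
    (H : Subgroup (Equiv.Perm X)), blocks.card = Fintype.card X → (∀ b ∈ blocks, b.card = k) →
    (∀ x y : X, x ≠ y → (blocks.filter (fun b => x ∈ b ∧ y ∈ b)).card = lam) →
    (∀ x, θ x ∈ blocks) → Function.Injective θ → (∀ x y, x ∈ θ y ↔ σ y ∈ θ x) →
    (∀ h ∈ H, ∀ x, θ (h x) = (θ x).image h) → (∀ h ∈ H, ∀ x, h x = x → h = 1) →
    Fintype.card X ≤ R * Nat.card H →
    Group.IsSolvable H →
    Fintype.card X ≤ K := by
  obtain ⟨K, hK⟩ := main_group2 hN hC hS lam R hlam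
  refine ⟨K ^ 2 + 1, ?_⟩
  intro X _ _ blocks k θ σ H hv hk hl hθ hθi hσ hHθ hfree hR hc
  by_cases hX : Fintype.card X ≤ 1
  · omega
  push Not at hX
  have hσi : Function.Injective σ := by
    intro y y' h
    apply hθi
    ext x
    rw [hσ x y, hσ x y', h]
  have hσb : Function.Bijective σ := Finite.injective_iff_bijective.mp hσi
  set σ' : Equiv.Perm X := Equiv.ofBijective σ hσb with hσ'
  have himg : Finset.univ.image θ = blocks := by
    apply Finset.eq_of_subset_of_card_le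
    · intro b hb
      obtain ⟨x, _, rfl⟩ := Finset.mem_image.mp hb
      exact hθ x
    · rw [Finset.card_image_of_injective _ hθi, Finset.card_univ, hv]
  have hcor : Cor lam k θ σ' := by
    refine ⟨fun y => hk _ (hθ y), ?_, fun x y => hσ x y⟩
    intro x x' hxx'
    rw [← hl x x' hxx', ← himg, Finset.filter_image, Finset.card_image_of_injective _ hθi]
  have hrep : ∀ x, (univ.filter (fun y => x ∈ θ y)).card = k := by
    intro x
    rw [← hcor.card x]
    have e : (univ.filter (fun y => x ∈ θ y)).map σ'.toEmbedding = θ x := by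
      ext z
      simp only [Finset.mem_map, Finset.mem_filter, Finset.mem_univ, true_and,
        Equiv.coe_toEmbedding]
      constructor
      · rintro ⟨y, hy, rfl⟩
        exact (hσ x y).mp hy
      · intro hz
        refine ⟨σ'.symm z, ?_, σ'.apply_symm_apply z⟩
        rw [hσ]
        have : σ (σ'.symm z) = z := σ'.apply_symm_apply z
        rw [this]
        exact hz
    rw [← e, Finset.card_map]
  obtain ⟨x0, y0, hxy⟩ := Fintype.one_lt_card_iff.mp hX
  have hlk : lam < k := by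
    by_contra hle
    push Not at hle
    have hall : ∀ z, x0 ≠ z → ∀ y, x0 ∈ θ y → z ∈ θ y := by
      intro z hz y hy
      have h1 := hcor.pair x0 z hz
      have h2 : (univ.filter (fun y => x0 ∈ θ y ∧ z ∈ θ y)) = univ.filter (fun y => x0 ∈ θ y) := by
        apply Finset.eq_of_subset_of_card_le
        · intro y hy
          simp only [Finset.mem_filter, Finset.mem_univ, true_and] at hy ⊢
          exact hy.1
        · rw [h1, hrep]
          exact hle
      have h3 : y ∈ univ.filter (fun y => x0 ∈ θ y) := by simp [hy]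
      rw [← h2] at h3
      simp only [Finset.mem_filter, Finset.mem_univ, true_and] at h3
      exact h3.2
    have huniv : ∀ y, x0 ∈ θ y → θ y = univ := by
      intro y hy
      ext z
      simp only [Finset.mem_univ, iff_true]
      by_cases hz : x0 = z
      · rw [← hz]; exact hy
      · exact hall z hz y hy
    have hcard1 : (univ.filter (fun y => x0 ∈ θ y)).card ≤ 1 := by
      rw [Finset.card_le_one]
      intro y hy y' hy'
      simp only [Finset.mem_filter, Finset.mem_univ, true_and] at hy hy'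
      apply hθi
      rw [huniv y hy, huniv y' hy']
    rw [hrep] at hcard1
    have h4 : 0 < (univ.filter (fun y => x0 ∈ θ y ∧ y0 ∈ θ y)).card := by
      rw [hcor.pair x0 y0 hxy]; omega
    obtain ⟨y, hy⟩ := Finset.card_pos.mp h4
    simp only [Finset.mem_filter, Finset.mem_univ, true_and] at hy
    have h5 := hcor.card y
    rw [huniv y hy.1, Finset.card_univ] at h5
    omega
  have hne : Nonempty X := ⟨x0⟩
  obtain ⟨r, a, hr1, hrR, hvr, hA⟩ := hD X lam k R θ σ' H hlam hlk hcor hHθ hfree hR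
  have hpar : (k : ℤ) ^ 2 = k - lam + lam * ((Fintype.card X : ℕ) : ℤ) := by
    rw [hA.par, hvr]; push_cast; ring
  have hkK := hK H r k a hr1 hrR hA hc
  have hvk : Fintype.card X ≤ k ^ 2 := by
    have h1 : ((Fintype.card X : ℕ) : ℤ) ≤ (k : ℤ) ^ 2 := by
      have h2 : (1 : ℤ) ≤ lam := by exact_mod_cast hlam
      have h3 : ((Fintype.card X : ℕ) : ℤ) ≤ lam * (Fintype.card X : ℕ) := by
        have : (0 : ℤ) ≤ (Fintype.card X : ℕ) := by positivity
        nlinarith
      have h4 : (lam : ℤ) < k := by exact_mod_cast hlk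
      linarith
    exact_mod_cast h1
  have : k ^ 2 ≤ K ^ 2 := Nat.pow_le_pow_left hkK 2
  omega

end Pool.Agent.Helper17.CR
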