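import Pool.Agent.Helper17.CR.Stmts2

/-! Assembly of the theorem on the smooth part of `X ^ 2 + D`. -/

set_option autoImplicit false

namespace Pool.Agent.Helper17.CR

open Finset

theorem sp_large {A : Set ℕ} (hA : A.Infinite) (M : ℝ) : ∃ x ∈ A, M ≤ Real.log x := by
  obtain ⟨x, hx, hlt⟩ := hA.exists_gt ⌈Real.exp M⌉₊
  refine ⟨x, hx, ?_⟩
  have h1 : Real.exp M ≤ x := (Nat.le_ceil _).trans (by exact_mod_cast hlt.le)
  have h2 : (0 : ℝ) < x := lt_of_lt_of_le (Real.exp_pos M) h1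
  exact (Real.le_log_iff_exp_le h2).mpr h1

/-- the final numerical contradiction -/
theorem sp_num (T : Finset ℕ) (n r i L δ b c lC1 lC2 : ℝ) (θ μ : ℕ → ℝ) (hn : 1 ≤ n)
    (hTn : (T.card : ℝ) ≤ n) (hr : 10000 * n ≤ r) (hδ : δ = 1 / (1000 * n)) (hb : 0 ≤ b)
    (hc : 0 ≤ c) (_hC1 : 0 ≤ lC1) (hi0 : 0 ≤ i) (hi : i * L ≤ 2 * L + r * lC1)
    (hL1 : 1000 * n * lC1 ≤ L) (hL2 : 1000 * n * (c * b) ≤ L) (hL3 : 2 * lC2 ≤ L) (hL : 1 ≤ L)
    (hθ : 99 / 50 - 2 * δ * n ≤ ∑ p ∈ T, θ p)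
    (hμ : ∀ p ∈ T, 7 * r * θ p * L - (3 * (i * L) + 30 * L + 10 * δ * r * L + 7 * r * (c * b)) ≤ μ p)
    (hup : ∑ p ∈ T, μ p ≤ r * lC2 + 12 * r * L) : False := by
  have hr0 : 0 < r := by linarith
  have hδn : δ * n = 1 / 1000 := by
    rw [hδ]; field_simp
  set E := 3 * (i * L) + 30 * L + 10 * δ * r * L + 7 * r * (c * b) with hE
  have hδ0 : 0 ≤ δ := by rw [hδ]; positivity
  have hE0 : 0 ≤ E := by
    have h1 : 0 ≤ c * b := mul_nonneg hc hb
    have : 0 ≤ i * L := mul_nonneg hi0 (by linarith)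
    have h2 : 0 ≤ 10 * δ * r * L := by positivity
    have h3 : 0 ≤ 7 * r * (c * b) := by positivity
    have : 0 ≤ L := by linarith
    linarith
  have h1 : ∑ p ∈ T, (7 * r * θ p * L - E) ≤ ∑ p ∈ T, μ p := Finset.sum_le_sum hμ
  rw [Finset.sum_sub_distrib, Finset.sum_const, nsmul_eq_mul] at h1
  have h2 : ∑ p ∈ T, 7 * r * θ p * L = 7 * r * L * ∑ p ∈ T, θ p := by
    rw [Finset.mul_sum]
    exact Finset.sum_congr rfl fun p _ => by ring
  rw [h2] at h1
  have h3 : (T.card : ℝ) * E ≤ n * E := mul_le_mul_of_nonneg_right hTn hE0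
  have hrL : 0 < r * L := mul_pos hr0 (by linarith)
  have h4 : 7 * r * L * (99 / 50 - 2 * δ * n) ≤ 7 * r * L * ∑ p ∈ T, θ p :=
    mul_le_mul_of_nonneg_left hθ (by positivity)
  have h5 : (99 / 50 : ℝ) - 2 * δ * n = 99 / 50 - 2 / 1000 := by
    have : 2 * δ * n = 2 * (δ * n) := by ring
    rw [this, hδn]; norm_num
  rw [h5] at h4
  -- bound of n E
  have e1 : n * (i * L) ≤ 2 * (n * L) + r * (n * lC1) := by nlinarith
  have e2 : r * (n * lC1) ≤ r * (L / 1000) := by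
    apply mul_le_mul_of_nonneg_left _ hr0.le
    linarith
  have e3 : n * L ≤ r * L / 10000 := by nlinarith
  have e4 : n * (10 * δ * r * L) = r * L / 100 := by
    have : n * (10 * δ * r * L) = 10 * (δ * n) * (r * L) := by ring
    rw [this, hδn]; ring
  have e5 : n * (7 * r * (c * b)) ≤ 7 * r * (L / 1000) := by
    have : n * (7 * r * (c * b)) = 7 * r * (n * (c * b)) := by ring
    rw [this]
    apply mul_le_mul_of_nonneg_left _ (by positivity)
    linarith
  have e6 : r * lC2 ≤ r * (L / 2) := mul_le_mul_of_nonneg_left (by linarith) hr0.le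
  have e7 : n * E = 3 * (n * (i * L)) + 30 * (n * L) + n * (10 * δ * r * L) +
      n * (7 * r * (c * b)) := by rw [hE]; ring
  nlinarith

theorem sp_B (r i L δ cb θ e1 e2 L2 : ℝ) (hr : 1 ≤ r) (hi : 0 ≤ i) (hir : i ≤ r) (hL : 1 ≤ L)
    (hδ : 0 ≤ δ) (hcb : 0 ≤ cb) (hθ1 : 2 * δ ≤ θ) (hθ2 : θ ≤ 3) (hL2 : 5 * (r - 1) * L ≤ L2)
    (f1 : θ * L - cb ≤ e1) (f2 : (θ - δ) * L2 - cb ≤ e2) :
    7 * r * θ * L - (3 * (i * L) + 30 * L + 10 * δ * r * L + 7 * r * cb) ≤ e1 * (7 * r - i) ∧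
    7 * r * θ * L - (3 * (i * L) + 30 * L + 10 * δ * r * L + 7 * r * cb) ≤ e1 * (2 * r - i) + e2 ∧
    7 * r * θ * L - (3 * (i * L) + 30 * L + 10 * δ * r * L + 7 * r * cb) ≤ 2 * e2 := by
  have hL0 : 0 < L := by linarith
  have hθ0 : 0 ≤ θ := by linarith
  have f3 : (θ - δ) * (5 * (r - 1) * L) ≤ (θ - δ) * L2 :=
    mul_le_mul_of_nonneg_left hL2 (by linarith)
  have hiL : 0 ≤ i * L := by positivity
  have hθi : θ * (i * L) ≤ 3 * (i * L) := mul_le_mul_of_nonneg_right hθ2 hiL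
  have hθL : θ * L ≤ 3 * L := mul_le_mul_of_nonneg_right hθ2 hL0.le
  have hicb : 0 ≤ i * cb := mul_nonneg hi hcb
  have hrcb : cb ≤ r * cb := le_mul_of_one_le_left hcb hr
  have hδL : 0 ≤ δ * L := by positivity
  have hδrL : 0 ≤ δ * r * L := by positivity
  have hθrL : 0 ≤ θ * r * L := by positivity
  have h1 : (θ * L - cb) * (7 * r - i) ≤ e1 * (7 * r - i) :=
    mul_le_mul_of_nonneg_right f1 (by linarith)
  have h2 : (θ * L - cb) * (2 * r - i) ≤ e1 * (2 * r - i) :=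
    mul_le_mul_of_nonneg_right f1 (by linarith)
  have E1 : (θ * L - cb) * (7 * r - i) = 7 * (θ * r * L) - θ * (i * L) - 7 * (r * cb) + i * cb := by
    ring
  have E2 : (θ * L - cb) * (2 * r - i) = 2 * (θ * r * L) - θ * (i * L) - 2 * (r * cb) + i * cb := by
    ring
  have E3 : (θ - δ) * (5 * (r - 1) * L) = 5 * (θ * r * L) - 5 * (θ * L) - 5 * (δ * r * L) +
      5 * (δ * L) := by ring
  have E4 : 7 * r * θ * L = 7 * (θ * r * L) := by ring
  have E5 : 10 * δ * r * L = 10 * (δ * r * L) := by ring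
  have E6 : 7 * r * cb = 7 * (r * cb) := by ring
  rw [E4, E5, E6]
  refine ⟨?_, ?_, ?_⟩ <;> linarith

theorem sp (hSIEG : ST_SIEG) (hZERO : ST_ZERO) (hVAL : ST_VAL) (hUPP : ST_UPP) (hPAIR : ST_PAIR)
    (hSEQ : ST_SEQ) : ST_SP := by
  intro D B hD
  by_contra hcon
  push Not at hcon
  set S := (range (B + 1)).filter Nat.Prime with hS
  set A : Set ℕ := {x | x ^ 99 ≤ (∏ p ∈ S, p ^ ex D p x) ^ 50} with hAdef
  have hAinf : A.Infinite := by
    rw [Set.infinite_iff_exists_gt]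
    intro a
    obtain ⟨x, hx, hx'⟩ := hcon (a + 1)
    exact ⟨x, hx', by omega⟩
  obtain ⟨C, hC, hPex⟩ := hSIEG D hD
  obtain ⟨C1, hC1, hZ⟩ := hZERO C hC
  obtain ⟨C2, hC2, hU⟩ := hUPP C hC
  set n : ℝ := (S.card : ℝ) + 1 with hn
  have hn1 : (1 : ℝ) ≤ n := by
    have : (0 : ℝ) ≤ S.card := Nat.cast_nonneg _
    linarith
  set δ : ℝ := 1 / (1000 * n) with hδ
  have hδ0 : 0 < δ := by rw [hδ]; positivity
  set c : ℕ := 4 * D + 1 with hc
  set b : ℝ := Real.log (B + 1) with hb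
  have hSp : ∀ p ∈ S, p.Prime := fun p hp => (Finset.mem_filter.mp hp).2
  have hSb : ∀ p ∈ S, Real.log p ≤ b ∧ 0 < Real.log p := by
    intro p hp
    obtain ⟨h1, h2⟩ := Finset.mem_filter.mp hp
    have h3 : p ≤ B := by have := Finset.mem_range.mp h1; omega
    have h4 : (0 : ℝ) < p := by exact_mod_cast h2.pos
    refine ⟨Real.log_le_log h4 ?_, Real.log_pos (by exact_mod_cast h2.one_lt)⟩
    have : (p : ℝ) ≤ B := by exact_mod_cast h3
    linarith
  have hb0 : 0 ≤ b := Real.log_nonneg (by have : (0 : ℝ) ≤ B := Nat.cast_nonneg _; linarith)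
  clear_value b
  clear_value δ
  clear_value n
  obtain ⟨A', hA'A, hA'inf, hA'2, hA'pair⟩ := hSEQ D c S δ A hD hδ0 hSp hAinf
  have hlC1 : 0 ≤ Real.log C1 := Real.log_nonneg (by exact_mod_cast hC1)
  have hlC2 : 0 ≤ Real.log C2 := Real.log_nonneg (by exact_mod_cast hC2)
  have hlC : 0 ≤ Real.log (2 * C) := Real.log_nonneg (by
    have : (1 : ℝ) ≤ C := by exact_mod_cast hC
    linarith)
  have hlD : 0 ≤ Real.log (D + 2) := Real.log_nonneg (by
    have : (0 : ℝ) ≤ D := Nat.cast_nonneg _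
    linarith)
  -- x1
  obtain ⟨x1, hx1A, hx1L⟩ := sp_large hA'inf (1000 * n * Real.log C1 + 1000 * n * (c * b) +
    2 * Real.log C2 + Real.log (2 * C) + Real.log (D + 2) + 1)
  set L := Real.log x1 with hL
  have hcb : 0 ≤ (c : ℝ) * b := mul_nonneg (Nat.cast_nonneg _) hb0
  have hp1 : 0 ≤ 1000 * n * Real.log C1 := by positivity
  have hp2 : 0 ≤ 1000 * n * (c * b) := by positivity
  have hL1 : 1 ≤ L := by linarith
  clear_value L
  have hx1pos : (0 : ℝ) < x1 := by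
    have := hA'2 x1 hx1A
    have h : (2 : ℝ) ≤ x1 := by exact_mod_cast this
    linarith
  have hx1D : D + 2 ≤ x1 := by
    have h1 : Real.log (D + 2) ≤ Real.log x1 := by
      rw [← hL]; linarith only [hp1, hp2, hx1L, hlC2, hlC, hlD]
    have h2 := (Real.log_le_log_iff (by positivity) hx1pos).mp h1
    exact_mod_cast h2
  -- x2
  obtain ⟨x2, hx2A, hx2L⟩ := sp_large hA'inf (5 * (10000 * n + 1) * L)
  set L2 := Real.log x2 with hL2
  clear_value L2
  have hx2pos : (0 : ℝ) < x2 := by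
    have := hA'2 x2 hx2A
    have h : (2 : ℝ) ≤ x2 := by exact_mod_cast this
    linarith
  -- x3
  obtain ⟨x3, hx3A, hx3L⟩ := sp_large hA'inf ((2 * Real.log ((x2 : ℝ) ^ 2 + D) +
    Real.log ((x1 : ℝ) ^ 2 + D)) / δ)
  have hlog1 : 0 ≤ Real.log ((x1 : ℝ) ^ 2 + D) := by
    apply Real.log_nonneg
    have h : (2 : ℝ) ≤ x1 := by exact_mod_cast hA'2 x1 hx1A
    have : (0 : ℝ) ≤ D := Nat.cast_nonneg _
    nlinarith only [h, this]
  have hlog2 : 0 ≤ Real.log ((x2 : ℝ) ^ 2 + D) := by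
    apply Real.log_nonneg
    have h : (2 : ℝ) ≤ x2 := by exact_mod_cast hA'2 x2 hx2A
    have : (0 : ℝ) ≤ D := Nat.cast_nonneg _
    nlinarith only [h, this]
  rw [div_le_iff₀ hδ0] at hx3L
  have hx3pos : (0 : ℝ) < x3 := by
    have := hA'2 x3 hx3A
    have h : (2 : ℝ) ≤ x3 := by exact_mod_cast this
    linarith
  -- exponents
  have hex : ∀ x : ℕ, ∀ p : ℕ, (ex D p x : ℝ) * Real.log p ≤ Real.log ((x : ℝ) ^ 2 + D) := by
    intro x p
    rcases Nat.eq_zero_or_pos p with h0 | h0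
    · have hne : (1 : ℝ) ≤ (x : ℝ) ^ 2 + D := by
        have : (1 : ℝ) ≤ D := by exact_mod_cast hD
        linarith only [this, sq_nonneg (x : ℝ)]
      rw [h0]; simp only [Nat.cast_zero, Real.log_zero, mul_zero]
      exact Real.log_nonneg hne
    · rw [← Real.log_pow]
      apply Real.log_le_log (by positivity)
      have h1 : p ^ ex D p x ∣ x ^ 2 + D := Nat.ordProj_dvd _ _
      have h2 := Nat.le_of_dvd (by omega) h1
      exact_mod_cast h2
  have hdvd : ∀ x p : ℕ, ∀ j ≤ ex D p x, ((p : ℤ) ^ j) ∣ (x : ℤ) ^ 2 + D := by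
    intro x p j hj
    have h1 : p ^ ex D p x ∣ x ^ 2 + D := Nat.ordProj_dvd _ _
    have h2 := (pow_dvd_pow p hj).trans h1
    exact_mod_cast h2
  set θ : ℕ → ℝ := fun p => (ex D p x1 : ℝ) * Real.log p / Real.log x1 with hθ
  have hθp : ∀ p, θ p = (ex D p x1 : ℝ) * Real.log p / Real.log x1 := fun p => rfl
  clear_value θ
  set T := S.filter (fun p => 2 * δ ≤ θ p) with hT
  have hTS : ∀ p ∈ T, p ∈ S := fun p hp => (Finset.mem_filter.mp hp).1
  -- r
  set r : ℕ := ⌈L2 / (5 * L)⌉₊ with hr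
  have h5L : 0 < 5 * L := by linarith
  have hrge : L2 ≤ 5 * r * L := by
    have := Nat.le_ceil (L2 / (5 * L))
    rw [div_le_iff₀ h5L] at this
    linarith
  have hL2pos : 0 < L2 / (5 * L) := by
    apply div_pos _ h5L
    have : 0 < 5 * (10000 * n + 1) * L := by positivity
    linarith
  have hrlt : 5 * ((r : ℝ) - 1) * L ≤ L2 := by
    have := Nat.ceil_lt_add_one hL2pos.le
    have h1 : (r : ℝ) - 1 ≤ L2 / (5 * L) := by linarith
    rw [le_div_iff₀ h5L] at h1
    linarith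
  have hrn : 10000 * n ≤ r := by
    have h1 : 5 * (10000 * n + 1) * L ≤ 5 * r * L := hx2L.trans hrge
    have h2 : (10000 * n + 1) ≤ r := by
      by_contra h
      push Not at h
      have : 5 * (r : ℝ) * L < 5 * (10000 * n + 1) * L := by
        have := mul_lt_mul_of_pos_right h h5L
        linarith
      linarith
    linarith
  have hr1 : 1 ≤ r := by
    have : (1 : ℝ) ≤ r := by linarith
    exact_mod_cast this
  obtain ⟨P, hP⟩ := hPex r hr1
  have hx1ge1 : 1 ≤ x1 := by omega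
  -- zero estimate
  have hZcond : 2 * C ^ r < x2 := by
    have h1 : (r : ℝ) * Real.log (2 * C) < L2 := by
      have h2 : (r : ℝ) * Real.log (2 * C) ≤ r * (L - 1) := by
        apply mul_le_mul_of_nonneg_left _ (Nat.cast_nonneg _)
        linarith
      have h3 : (2 : ℝ) ≤ r := by linarith only [hrn, hn1]
      have h5 : 0 ≤ ((r : ℝ) - 2) * L :=
        mul_nonneg (by linarith only [h3]) (by linarith only [hL1])
      linarith only [h2, hrlt, h5, h3, hL1]
    have h2 : ((2 * C : ℝ)) ^ r < x2 := by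
      have h3 : (0 : ℝ) < 2 * C := by
        have : (1 : ℝ) ≤ C := by exact_mod_cast hC
        linarith
      rw [← Real.log_lt_log_iff (pow_pos h3 _) hx2pos, Real.log_pow, ← hL2]
      exact h1
    have h3 : 2 * C ^ r ≤ (2 * C) ^ r := by
      rw [mul_pow]
      apply Nat.mul_le_mul_right
      exact Nat.le_self_pow (by omega) 2
    have h4 : (2 * C) ^ r < x2 := by exact_mod_cast h2
    omega
  obtain ⟨i, hi, hi2⟩ := hZ D r x1 x2 P hr1 hP hx1ge1 hZcond
  have hiL : (i : ℝ) * L ≤ 2 * L + r * Real.log C1 := by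
    have h1 : ((x1 : ℝ)) ^ i ≤ (x1 : ℝ) ^ 2 * (C1 : ℝ) ^ r := by exact_mod_cast hi2
    have hC1pos : (0 : ℝ) < C1 := by exact_mod_cast hC1
    have h2 := Real.log_le_log (pow_pos hx1pos i) h1
    rw [Real.log_mul (pow_pos hx1pos 2).ne' (pow_pos hC1pos r).ne', Real.log_pow, Real.log_pow,
      Real.log_pow, ← hL, Nat.cast_ofNat] at h2
    exact h2
  have hir : i ≤ r := by
    have h1 : (i : ℝ) ≤ r := by
      have h2 : (r : ℝ) * Real.log C1 ≤ r * (L / 1000) := by
        apply mul_le_mul_of_nonneg_left _ (Nat.cast_nonneg _)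
        have : 1000 * Real.log C1 ≤ 1000 * n * Real.log C1 := by nlinarith only [hn1, hlC1]
        linarith only [this, hp2, hx1L, hlC2, hlC, hlD]
      have h3 : (i : ℝ) * L ≤ r * L := by
        have h4 : (10000 : ℝ) ≤ r := by linarith only [hrn, hn1]
        have h5 : 0 ≤ ((r : ℝ) - 10000) * L :=
          mul_nonneg (by linarith only [h4]) (by linarith only [hL1])
        linarith only [hiL, h2, h5, h4, hL1]
      exact le_of_mul_le_mul_right h3 (by linarith)
    exact_mod_cast h1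
  set ev : ℤ := (Polynomial.hasseDeriv i (spc P x2)).eval (x1 : ℤ) with hev
  have hup := hU D r i x1 x2 P hr1 hP hx1ge1 (by
    have h1 : (x2 : ℝ) ≤ (x1 : ℝ) ^ (5 * r) := by
      rw [← Real.log_le_log_iff hx2pos (pow_pos hx1pos _), Real.log_pow, ← hL, ← hL2,
        Nat.cast_mul, Nat.cast_ofNat]
      exact hrge
    exact_mod_cast h1)
  rw [← hev] at hup
  -- the exponents m_p
  set e1 : ℕ → ℕ := fun p => ex D p x1 - c with he1
  set e2 : ℕ → ℕ := fun p => ex D p x2 - c with he2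
  set mm : ℕ → ℕ := fun p => min (e1 p * (7 * r - i)) (min (e1 p * (2 * r - i) + e2 p) (2 * e2 p))
    with hmm
  -- facts for active primes
  have hact : ∀ p ∈ T, c ≤ ex D p x1 ∧ c ≤ ex D p x2 ∧ 2 * ex D p x2 ≤ ex D p x3 ∧
      ex D p x1 ≤ ex D p x3 ∧ (ex D p x1 : ℝ) * Real.log p = θ p * L ∧
      (θ p - δ) * L2 ≤ (ex D p x2 : ℝ) * Real.log p ∧ 2 * δ ≤ θ p ∧ θ p ≤ 3 := by
    intro p hp
    have hpS := hTS p hp
    have hpθ : 2 * δ ≤ θ p := (Finset.mem_filter.mp hp).2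
    obtain ⟨hpb, hp0⟩ := hSb p hpS
    have hL2' : 0 < L2 := by
      have : 0 < 5 * (10000 * n + 1) * L := by positivity
      linarith
    have hL3' : 0 < Real.log x3 := by
      have h : (2 : ℝ) ≤ x3 := by exact_mod_cast hA'2 x3 hx3A
      exact Real.log_pos (by linarith)
    have hL0 : L ≠ 0 := (by linarith only [hL1] : (0 : ℝ) < L).ne'
    have h1 : (ex D p x1 : ℝ) * Real.log p = θ p * L := by
      rw [hθp, ← hL, div_mul_cancel₀ _ hL0]
    have h12 := (hA'pair x1 hx1A x2 hx2A p hpS).2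
    have h13 := (hA'pair x1 hx1A x3 hx3A p hpS).2
    rw [abs_le] at h12 h13
    have hθdef : (ex D p x1 : ℝ) * Real.log p / Real.log x1 = θ p := (hθp p).symm
    rw [hθdef] at h12 h13
    have h2 : (θ p - δ) * L2 ≤ (ex D p x2 : ℝ) * Real.log p := by
      have : θ p - δ ≤ (ex D p x2 : ℝ) * Real.log p / L2 := by
        rw [← hL2] at h12
        linarith only [h12.2]
      rwa [le_div_iff₀ hL2'] at this
    have h3 : (θ p - δ) * Real.log x3 ≤ (ex D p x3 : ℝ) * Real.log p := by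
      have : θ p - δ ≤ (ex D p x3 : ℝ) * Real.log p / Real.log x3 := by
        linarith only [h13.2]
      rwa [le_div_iff₀ hL3'] at this
    have hδL3 : δ * Real.log x3 ≤ (ex D p x3 : ℝ) * Real.log p := by
      refine le_trans ?_ h3
      exact mul_le_mul_of_nonneg_right (by linarith) hL3'.le
    have hcast : ∀ a e : ℝ, a * Real.log p ≤ e * Real.log p → a ≤ e := fun a e h =>
      le_of_mul_le_mul_right h hp0
    have hcδ : (c : ℝ) * b ≤ δ * L := by
      have h1000 : (0 : ℝ) < 1000 * n := by linarith only [hn1]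
      have hcbL : 1000 * n * (c * b) ≤ L := by linarith only [hp1, hp2, hx1L, hlC2, hlC, hlD]
      rw [hδ, div_mul_eq_mul_div, one_mul, le_div_iff₀ h1000]
      linarith only [hcbL]
    refine ⟨?_, ?_, ?_, ?_, h1, h2, hpθ, ?_⟩
    · have : (c : ℝ) ≤ ex D p x1 := by
        apply hcast
        rw [h1]
        calc (c : ℝ) * Real.log p ≤ c * b := mul_le_mul_of_nonneg_left hpb (Nat.cast_nonneg _)
          _ ≤ δ * L := hcδ
          _ ≤ θ p * L := mul_le_mul_of_nonneg_right (by linarith) (by linarith)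
      exact_mod_cast this
    · have : (c : ℝ) ≤ ex D p x2 := by
        apply hcast
        refine le_trans ?_ h2
        calc (c : ℝ) * Real.log p ≤ c * b := mul_le_mul_of_nonneg_left hpb (Nat.cast_nonneg _)
          _ ≤ δ * L := hcδ
          _ ≤ δ * L2 := by
            apply mul_le_mul_of_nonneg_left _ hδ0.le
            have h5 : L ≤ 5 * (10000 * n + 1) * L := by nlinarith only [hn1, hL1]
            linarith only [h5, hx2L]
          _ ≤ (θ p - δ) * L2 := mul_le_mul_of_nonneg_right (by linarith) hL2'.le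
      exact_mod_cast this
    · have : ((2 * ex D p x2 : ℕ) : ℝ) ≤ ex D p x3 := by
        apply hcast
        push_cast
        have := hex x2 p
        linarith only [this, hδL3, hx3L, hlog1]
      exact_mod_cast this
    · have : (ex D p x1 : ℝ) ≤ ex D p x3 := by
        apply hcast
        have := hex x1 p
        linarith only [this, hδL3, hx3L, hlog2]
      exact_mod_cast this
    · have h4 := hex x1 p
      rw [h1] at h4
      have h5 : Real.log ((x1 : ℝ) ^ 2 + D) ≤ 3 * L := by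
        have h6 : (3 : ℝ) * L = Real.log ((x1 : ℝ) ^ 3) := by
          rw [Real.log_pow, Nat.cast_ofNat, ← hL]
        rw [h6]
        apply Real.log_le_log
        · have : (0 : ℝ) ≤ D := Nat.cast_nonneg _
          positivity
        · have h7 : (D : ℝ) + 2 ≤ x1 := by exact_mod_cast hx1D
          have h8 : (0 : ℝ) ≤ D := Nat.cast_nonneg _
          have h9 : (0 : ℝ) ≤ x1 - 2 := by linarith only [h7, h8]
          nlinarith only [h7, h8, mul_nonneg (sq_nonneg (x1 : ℝ)) h9, mul_nonneg hx1pos.le h9]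
      exact le_of_mul_le_mul_right (h4.trans h5) (by linarith)
  have hc4D : ∀ p : ℕ, p.Prime → ¬ ((p : ℤ) ^ c) ∣ 4 * (D : ℤ) := by
    intro p hp hdv
    have h1 : p ^ c ∣ 4 * D := by exact_mod_cast hdv
    have h2 := Nat.le_of_dvd (by omega) h1
    have h3 : 2 ^ c ≤ p ^ c := Nat.pow_le_pow_left hp.two_le c
    have h4 : c < 2 ^ c := Nat.lt_two_pow_self
    omega
  have hdiv : ∀ p ∈ T, ((p : ℤ) ^ mm p) ∣ ev := by
    intro p hp
    have hpS := hTS p hp
    obtain ⟨g1, g2, g3, g4, _⟩ := hact p hp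
    have hpp := hSp p hpS
    have hprime : Prime (p : ℤ) := Nat.prime_iff_prime_int.mp hpp
    have k1 := hPAIR D c (ex D p x1) p x1 x3 hprime (hc4D p hpp) g1
      (hA'pair x1 hx1A x3 hx3A p hpS).1 (hdvd x1 p _ le_rfl) (hdvd x3 p _ g4)
    have k2 := hPAIR D c (ex D p x2) p x2 x3 hprime (hc4D p hpp) g2
      (hA'pair x2 hx2A x3 hx3A p hpS).1 (hdvd x2 p _ le_rfl) (hdvd x3 p _ (by omega))
    have h2e : 2 * e2 p ≤ ex D p x3 := by
      have : e2 p ≤ ex D p x2 := Nat.sub_le _ _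
      omega
    exact hVAL D r (C ^ r) i (ex D p x3) (e1 p) (e2 p) (mm p) p x1 x2 x3 P hP
      (hdvd x3 p _ le_rfl) k1 k2
      (((min_le_right _ _).trans (min_le_right _ _)).trans h2e) (min_le_left _ _)
      ((min_le_right _ _).trans (min_le_left _ _)) ((min_le_right _ _).trans (min_le_right _ _))
  have hprod : (∏ p ∈ T, (p : ℤ) ^ mm p) ∣ ev := by
    apply Finset.prod_dvd_of_coprime
    · intro p hp q hq hpq
      apply IsCoprime.pow
      rw [Nat.isCoprime_iff_coprime]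
      exact (Nat.coprime_primes (hSp p (hTS p hp)) (hSp q (hTS q hq))).mpr hpq
    · exact hdiv
  have hprodle : ((∏ p ∈ T, (p : ℝ) ^ mm p)) ≤ (C2 : ℝ) ^ r * (x1 : ℝ) ^ (12 * r) := by
    have h1 : (∏ p ∈ T, (p : ℤ) ^ mm p) ≤ |ev| :=
      Int.le_of_dvd (abs_pos.mpr hi) ((dvd_abs _ _).mpr hprod)
    have h2 := h1.trans hup
    exact_mod_cast h2
  have hsumle : ∑ p ∈ T, (mm p : ℝ) * Real.log p ≤ r * Real.log C2 + 12 * r * L := by
    have hC2pos : (0 : ℝ) < C2 := by exact_mod_cast hC2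
    have hppos : ∀ p ∈ T, (0 : ℝ) < (p : ℝ) ^ mm p := fun p hp =>
      pow_pos (by exact_mod_cast (hSp p (hTS p hp)).pos) _
    have h1 := Real.log_le_log (Finset.prod_pos hppos) hprodle
    rw [Real.log_prod (fun p hp => (hppos p hp).ne'),
      Real.log_mul (pow_pos hC2pos _).ne' (pow_pos hx1pos _).ne', Real.log_pow, Real.log_pow,
      ← hL, Nat.cast_mul, Nat.cast_ofNat] at h1
    have h2 : ∑ p ∈ T, Real.log ((p : ℝ) ^ mm p) = ∑ p ∈ T, (mm p : ℝ) * Real.log p :=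
      Finset.sum_congr rfl fun p _ => Real.log_pow _ _
    rw [h2] at h1
    linarith only [h1]
  -- sum of θ
  have hθsum : 99 / 50 - 2 * δ * n ≤ ∑ p ∈ T, θ p := by
    have hL0 : L ≠ 0 := (by linarith only [hL1] : (0 : ℝ) < L).ne'
    have hx1mem : x1 ∈ A := hA'A hx1A
    have h1 : ((x1 : ℝ)) ^ 99 ≤ (∏ p ∈ S, (p : ℝ) ^ ex D p x1) ^ 50 := by
      have : x1 ^ 99 ≤ (∏ p ∈ S, p ^ ex D p x1) ^ 50 := hx1mem
      exact_mod_cast this
    have hppos : ∀ p ∈ S, (0 : ℝ) < (p : ℝ) ^ ex D p x1 := fun p hp =>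
      pow_pos (by exact_mod_cast (hSp p hp).pos) _
    have h2 := Real.log_le_log (pow_pos hx1pos _) h1
    rw [Real.log_pow, Real.log_pow, Real.log_prod (fun p hp => (hppos p hp).ne')] at h2
    have h3 : ∑ p ∈ S, Real.log ((p : ℝ) ^ ex D p x1) = (∑ p ∈ S, θ p) * L := by
      rw [Finset.sum_mul]
      refine Finset.sum_congr rfl fun p _ => ?_
      rw [Real.log_pow, hθp, ← hL, div_mul_cancel₀ _ hL0]
    rw [h3] at h2
    push_cast at h2
    have h4 : 99 / 50 ≤ ∑ p ∈ S, θ p := by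
      by_contra h
      push Not at h
      have : (∑ p ∈ S, θ p) * L < 99 / 50 * L := mul_lt_mul_of_pos_right h (by linarith)
      rw [← hL] at h2
      linarith only [this, h2]
    have h5 : ∑ p ∈ S, θ p = ∑ p ∈ T, θ p + ∑ p ∈ S.filter (fun p => ¬ 2 * δ ≤ θ p), θ p :=
      (Finset.sum_filter_add_sum_filter_not S _ _).symm
    have h6 : ∑ p ∈ S.filter (fun p => ¬ 2 * δ ≤ θ p), θ p ≤ 2 * δ * n := by
      calc ∑ p ∈ S.filter (fun p => ¬ 2 * δ ≤ θ p), θ p
          ≤ ∑ p ∈ S.filter (fun p => ¬ 2 * δ ≤ θ p), 2 * δ := by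
            refine Finset.sum_le_sum fun p hp => ?_
            have := (Finset.mem_filter.mp hp).2
            linarith
        _ = (S.filter (fun p => ¬ 2 * δ ≤ θ p)).card * (2 * δ) := by
            rw [Finset.sum_const, nsmul_eq_mul]
        _ ≤ n * (2 * δ) := by
            apply mul_le_mul_of_nonneg_right _ (by linarith)
            have : ((S.filter (fun p => ¬ 2 * δ ≤ θ p)).card : ℝ) ≤ S.card := by
              exact_mod_cast Finset.card_filter_le _ _
            linarith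
        _ = 2 * δ * n := by ring
    linarith
  have hTn : (T.card : ℝ) ≤ n := by
    have : (T.card : ℝ) ≤ S.card := by exact_mod_cast Finset.card_filter_le _ _
    linarith
  refine sp_num T n r i L δ b c (Real.log C1) (Real.log C2) θ (fun p => (mm p : ℝ) * Real.log p)
    hn1 hTn hrn hδ hb0 (Nat.cast_nonneg _) hlC1 (Nat.cast_nonneg _) hiL
    (by linarith only [hp1, hp2, hx1L, hlC2, hlC, hlD])
    (by linarith only [hp1, hp2, hx1L, hlC2, hlC, hlD])
    (by linarith only [hp1, hp2, hx1L, hlC2, hlC, hlD]) hL1 hθsum ?_ hsumle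
  intro p hp
  obtain ⟨g1, g2, _, _, g5, g6, g7, g8⟩ := hact p hp
  obtain ⟨hpb, hp0⟩ := hSb p (hTS p hp)
  have hrR : (1 : ℝ) ≤ r := by exact_mod_cast hr1
  have he1c : (e1 p : ℝ) = (ex D p x1 : ℝ) - c := by
    rw [he1]; simp only; push_cast [g1]; ring
  have he2c : (e2 p : ℝ) = (ex D p x2 : ℝ) - c := by
    rw [he2]; simp only; push_cast [g2]; ring
  have hclp : (c : ℝ) * Real.log p ≤ c * b := mul_le_mul_of_nonneg_left hpb (Nat.cast_nonneg _)
  have f1 : θ p * L - c * b ≤ (e1 p : ℝ) * Real.log p := by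
    rw [he1c, sub_mul, g5]; linarith only [hclp]
  have f2 : (θ p - δ) * L2 - c * b ≤ (e2 p : ℝ) * Real.log p := by
    rw [he2c, sub_mul]; linarith only [hclp, g6]
  have hiR : (i : ℝ) ≤ r := by exact_mod_cast hir
  have h7r : i ≤ 7 * r := by omega
  have h2r : i ≤ 2 * r := by omega
  have hsub7 : ((7 * r - i : ℕ) : ℝ) = 7 * r - i := by
    rw [Nat.cast_sub h7r, Nat.cast_mul, Nat.cast_ofNat]
  have hsub2 : ((2 * r - i : ℕ) : ℝ) = 2 * r - i := by
    rw [Nat.cast_sub h2r, Nat.cast_mul, Nat.cast_ofNat]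
  obtain ⟨b1, b2, b3⟩ := sp_B r i L δ (c * b) (θ p) ((e1 p : ℝ) * Real.log p)
    ((e2 p : ℝ) * Real.log p) L2 hrR (Nat.cast_nonneg _) hiR hL1 hδ0.le hcb g7 g8 hrlt f1 f2
  have B1 : 7 * r * θ p * L - (3 * (i * L) + 30 * L + 10 * δ * r * L + 7 * r * (c * b)) ≤
      ((e1 p * (7 * r - i) : ℕ) : ℝ) * Real.log p := by
    have hE : ((e1 p * (7 * r - i) : ℕ) : ℝ) = (e1 p : ℝ) * (7 * r - i) := by
      rw [Nat.cast_mul, hsub7]
    rw [hE]
    linarith only [b1]
  have B2 : 7 * r * θ p * L - (3 * (i * L) + 30 * L + 10 * δ * r * L + 7 * r * (c * b)) ≤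
      ((e1 p * (2 * r - i) + e2 p : ℕ) : ℝ) * Real.log p := by
    have hE : ((e1 p * (2 * r - i) + e2 p : ℕ) : ℝ) = (e1 p : ℝ) * (2 * r - i) + e2 p :=
      (Nat.cast_add _ _).trans (by rw [Nat.cast_mul, hsub2])
    rw [hE]
    linarith only [b2]
  have B3 : 7 * r * θ p * L - (3 * (i * L) + 30 * L + 10 * δ * r * L + 7 * r * (c * b)) ≤
      ((2 * e2 p : ℕ) : ℝ) * Real.log p := by
    have hE : ((2 * e2 p : ℕ) : ℝ) = 2 * (e2 p : ℝ) := by
      rw [Nat.cast_mul, Nat.cast_ofNat]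
    rw [hE]
    linarith only [b3]
  rcases min_choice (e1 p * (7 * r - i)) (min (e1 p * (2 * r - i) + e2 p) (2 * e2 p)) with h | h
  · have : mm p = e1 p * (7 * r - i) := h
    show _ ≤ (mm p : ℝ) * Real.log p
    rw [this]; exact B1
  · have h' : mm p = min (e1 p * (2 * r - i) + e2 p) (2 * e2 p) := h
    show _ ≤ (mm p : ℝ) * Real.log p
    rw [h']
    rcases min_choice (e1 p * (2 * r - i) + e2 p) (2 * e2 p) with h2 | h2
    · rw [h2]; exact B2
    · rw [h2]; exact B3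

end Pool.Agent.Helper17.CR
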