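import Pool.Agent.Helper17.CR.Stmts

/-!
MP_c38931_co, second part: the smooth part of `X ^ 2 + D`, and all solvable groups.
-/

set_option autoImplicit false

namespace Pool.Agent.Helper17.CR

open Finset

universe u

/-! ## E. The smooth part of `X ^ 2 + D` -/

open Polynomial in
/-- `P 0 + Y P 1 + Y ^ 2 P 2` vanishes to a high order at `(√(-D), √(-D))` -/
structure Aux (D r H : ℕ) (P : Fin 3 → Polynomial ℤ) : Prop where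
  ne : P ≠ 0
  deg0 : (P 0).natDegree ≤ 10 * r
  deg1 : (P 1).natDegree ≤ 7 * r
  deg2 : (P 2).natDegree ≤ 2 * r
  coef : ∀ b i, |(P b).coeff i| ≤ (H : ℤ)
  v0 : ∀ i, i < 7 * r → (X ^ 2 + C (D : ℤ)) ∣
    hasseDeriv i (P 0) + X * hasseDeriv i (P 1) + X ^ 2 * hasseDeriv i (P 2)
  v1 : ∀ i, i < 2 * r → (X ^ 2 + C (D : ℤ)) ∣ hasseDeriv i (P 1) + 2 * X * hasseDeriv i (P 2)

open Polynomial in
/-- specialization of the second variable -/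
noncomputable def spc (P : Fin 3 → Polynomial ℤ) (y : ℤ) : Polynomial ℤ :=
  P 0 + C y * P 1 + C (y ^ 2) * P 2

/-- Siegel's lemma -/
def ST_SIEG : Prop := ∀ D : ℕ, 1 ≤ D → ∃ C : ℕ, 1 ≤ C ∧ ∀ r : ℕ, 1 ≤ r →
  ∃ P : Fin 3 → Polynomial ℤ, Aux D r (C ^ r) P

/-- Wronskians of linearly independent polynomials -/
def ST_WRO : Prop := ∀ (n : ℕ) (f : Fin n → Polynomial ℤ), LinearIndependent ℤ f →
  (Matrix.of fun i j : Fin n => Polynomial.hasseDeriv (i : ℕ) (f j)).det ≠ 0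

open Polynomial in
def ST_WDIV : Prop := ∀ (P : Fin 3 → Polynomial ℤ) (c : Fin 3 → ℤ) (x : ℤ) (m : ℕ),
  ∑ j, C (c j) * P j ≠ 0 → (X - C x) ^ m ∣ ∑ j, C (c j) * P j →
  ∃ (n : ℕ) (f : Fin n → Fin 3), n ≤ 3 ∧
    (Matrix.of fun i j : Fin n => Polynomial.hasseDeriv (i : ℕ) (P (f j))).det ≠ 0 ∧
    (X - C x) ^ (m - 2) ∣
      (Matrix.of fun i j : Fin n => Polynomial.hasseDeriv (i : ℕ) (P (f j))).det

open Polynomial in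
def ST_WBD : Prop :=
  (∀ (W : Polynomial ℤ) (x m H : ℕ), W ≠ 0 → 1 ≤ x → (X - C (x : ℤ)) ^ m ∣ W →
    (∀ i, |W.coeff i| ≤ (H : ℤ)) → x ^ m ≤ H) ∧
  ∀ C : ℕ, 1 ≤ C → ∃ C' : ℕ, 1 ≤ C' ∧ ∀ (r n : ℕ) (F : Fin n → Polynomial ℤ), 1 ≤ r → n ≤ 3 →
    (∀ j, (F j).natDegree ≤ 10 * r) → (∀ j i, |(F j).coeff i| ≤ (C : ℤ) ^ r) →
    ∀ i, |(Matrix.of fun i j : Fin n => Polynomial.hasseDeriv (i : ℕ) (F j)).det.coeff i| ≤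
      (C' : ℤ) ^ r

/-- zero estimate -/
def ST_ZERO : Prop := ∀ C : ℕ, 1 ≤ C → ∃ C' : ℕ, 1 ≤ C' ∧ ∀ (D r x y : ℕ)
  (P : Fin 3 → Polynomial ℤ), 1 ≤ r → Aux D r (C ^ r) P → 1 ≤ x → 2 * C ^ r < y →
  ∃ i : ℕ, (Polynomial.hasseDeriv i (spc P y)).eval (x : ℤ) ≠ 0 ∧ x ^ i ≤ x ^ 2 * C' ^ r

/-- divisibility by powers of a prime; `a` is a very good approximation of the root -/
def ST_VAL : Prop := ∀ (D r H i w e1 e2 m : ℕ) (p x y a : ℤ) (P : Fin 3 → Polynomial ℤ),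
  Aux D r H P → p ^ w ∣ a ^ 2 + D → p ^ e1 ∣ x - a → p ^ e2 ∣ y - a → m ≤ w →
  m ≤ e1 * (7 * r - i) → m ≤ e1 * (2 * r - i) + e2 → m ≤ 2 * e2 →
  p ^ m ∣ (Polynomial.hasseDeriv i (spc P y)).eval x

/-- upper bound -/
def ST_UPP : Prop := ∀ C : ℕ, 1 ≤ C → ∃ C' : ℕ, 1 ≤ C' ∧ ∀ (D r i x y : ℕ)
  (P : Fin 3 → Polynomial ℤ), 1 ≤ r → Aux D r (C ^ r) P → 1 ≤ x → y ≤ x ^ (5 * r) →
  |(Polynomial.hasseDeriv i (spc P y)).eval (x : ℤ)| ≤ (C' : ℤ) ^ r * (x : ℤ) ^ (12 * r)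

/-- two solutions which are congruent modulo a fixed power of `p` are close `p`-adically -/
def ST_PAIR : Prop := ∀ (D c e : ℕ) (p x x' : ℤ), Prime p → ¬ p ^ c ∣ 4 * (D : ℤ) → c ≤ e →
  p ^ c ∣ x - x' → p ^ e ∣ x ^ 2 + D → p ^ e ∣ x' ^ 2 + D → p ^ (e - c) ∣ x - x'

/-- the exponent of `p` in `x ^ 2 + D` -/
def ex (D p x : ℕ) : ℕ := (x ^ 2 + D).factorization p

/-- pigeonhole -/
def ST_SEQ : Prop := ∀ (D c : ℕ) (S : Finset ℕ) (δ : ℝ) (A : Set ℕ), 1 ≤ D → 0 < δ →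
  (∀ p ∈ S, p.Prime) → A.Infinite →
  ∃ A' : Set ℕ, A' ⊆ A ∧ A'.Infinite ∧ (∀ x ∈ A', 2 ≤ x) ∧ ∀ x ∈ A', ∀ y ∈ A', ∀ p ∈ S,
    ((p : ℤ) ^ c ∣ (x : ℤ) - y) ∧
    |(ex D p x : ℝ) * Real.log p / Real.log x - (ex D p y : ℝ) * Real.log p / Real.log y| ≤ δ

/-- the smooth part of `X ^ 2 + D` is at most `X ^ (99 / 50)` for all large `X` -/
def ST_SP : Prop := ∀ D B : ℕ, 1 ≤ D → ∃ X0 : ℕ, ∀ x : ℕ, X0 ≤ x →
  (∏ p ∈ (range (B + 1)).filter Nat.Prime, p ^ ex D p x) ^ 50 < x ^ 99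

/-- numerical consequence -/
def ST_SPF : Prop := ∀ lam R : ℕ, 1 ≤ lam → ∃ K : ℕ, ∀ (r k s d : ℕ) (α : ℤ), 1 ≤ r → r ≤ R →
  1 ≤ d → (k : ℤ) = (s : ℤ) ^ 2 + lam → (α = s ∨ α = -s) → 2 ^ d ≤ k ^ 2 →
  (∀ l j : ℕ, l.Prime → ¬ l ∣ 2 * lam → ((l : ℤ) ^ j) ∣ (k : ℤ) + α → l ^ j ∣ r * d) → k ≤ K

/-! ## F. Solvable groups -/

/-- Hall subgroups -/
def ST_HALL : Prop := ∀ (G : Type u) [Group G] [Finite G] [Group.IsSolvable G] (Pi : ℕ → Prop),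
  ∃ K : Subgroup G, (∀ l : ℕ, l.Prime → l ∣ Nat.card K → Pi l) ∧
    ∀ l j : ℕ, l.Prime → Pi l → l ^ j ∣ Nat.card G → l ^ j ∣ Nat.card K

/-- an element which centralizes all normal subgroups of prime power order -/
def ST_FITG : Prop := ∀ (G : Type u) [Group G] [Finite G] [Group.IsSolvable G] (x : G),
  (orderOf x).Prime → (∀ N : Subgroup G, N.Normal → IsPGroup (orderOf x) N → N = ⊥) →
  ∃ (p : ℕ) (P : Subgroup G), p.Prime ∧ P.Normal ∧ IsPGroup p P ∧ ∃ y ∈ P, x * y ≠ y * x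

/-- the module `P / Phi(P)` -/
def ST_MOD2 : Prop := ∀ (G : Type u) [Group G] [Finite G] (p : ℕ) [Fact p.Prime]
  (P : Subgroup G), P.Normal → IsPGroup p P →
  ∃ (V : Type u) (_ : AddCommGroup V) (_ : Module (ZMod p) V) (_ : Finite V)
    (ρ : G →* (V →ₗ[ZMod p] V)), Nat.card V ≤ Nat.card P ∧
    ∀ x : G, (orderOf x).Prime → orderOf x ≠ p → ρ x = 1 → ∀ y ∈ P, x * y = y * x

/-- weights, for a representation which is not trivial on `M` -/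
def ST_WT2 : Prop := ∀ (G : Type u) [Group G] [Finite G] (p : ℕ) [Fact p.Prime] (V : Type u)
  [AddCommGroup V] [Module (ZMod p) V] [Finite V] (ρ : G →* (V →ₗ[ZMod p] V)),
  ∀ (q : ℕ) (M : Subgroup G), q.Prime → q ≠ p → M.Normal → IsPGroup q M →
  (∃ x ∈ M, ρ x ≠ 1) → (∀ x ∈ M, ∀ y ∈ M, x * y = y * x) →
  ∃ (K : Type) (_ : Field K) (Om : Finset (G → K)), p ^ Om.card ≤ Nat.card V ∧
    (∀ χ ∈ Om, χ 1 = 1 ∧ (∀ x ∈ M, ∀ y ∈ M, χ (x * y) = χ x * χ y) ∧ ∀ x, x ∉ M → χ x = 0) ∧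
    (∀ χ ∈ Om, ∀ g : G, (fun x => χ (g * x * g⁻¹)) ∈ Om) ∧ ∃ χ ∈ Om, ∃ x ∈ M, χ x ≠ 1

def ST_CASEA2 : Prop := ∀ (G : Type u) [Group G] [Finite G] (p : ℕ) [Fact p.Prime] (V : Type u)
  [AddCommGroup V] [Module (ZMod p) V] [Finite V] (ρ : G →* (V →ₗ[ZMod p] V)),
  ∀ (q : ℕ) (M : Subgroup G), q.Prime → q ≠ p → M.Normal → IsPGroup q M →
  (∃ x ∈ M, ρ x ≠ 1) → (∀ x ∈ M, ∀ y ∈ M, x * y = y * x) → ∀ Pi : ℕ → Prop,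
  (∀ g : G, (orderOf g).Prime → Pi (orderOf g) → ∀ x ∈ M, g * x = x * g → x = 1) →
  ∃ d : ℕ, 0 < d ∧ p ^ d ≤ Nat.card V ∧
    ∀ l j : ℕ, l.Prime → Pi l → l ^ j ∣ Nat.card G → l ^ j ∣ d

/-- the data used for solvable groups -/
structure Sgn2 (G : Type u) [Group G] [Finite G] (lam r k s : ℕ) (al : ℕ → ℤ) : Prop where
  hk : (k : ℤ) = (s : ℤ) ^ 2 + lam
  hs : 1 ≤ s
  par : (lam : ℤ) * (r * Nat.card G) = (k - s) * (k + s)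
  good : ∀ q : ℕ, q.Prime → q ∣ Nat.card G → ¬ q ∣ 2 * lam → (al q = s ∨ al q = -s) ∧
    (q : ℤ) ∣ k - al q
  cent : ∀ g : G, (orderOf g).Prime → ¬ orderOf g ∣ 2 * lam →
    ((Nat.card (Subgroup.centralizer {g}) : ℕ) : ℤ) ∣ k - al (orderOf g)
  nor : ∀ q : ℕ, q.Prime → ¬ q ∣ 2 * lam → ∀ Q : Subgroup G, Q.Normal → IsPGroup q Q → Q = ⊥

def ST_SOLV2 : Prop := ∀ lam R : ℕ, 1 ≤ lam → ∃ K : ℕ, ∀ (G : Type u) [Group G] [Finite G]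
  [Group.IsSolvable G] (r k s : ℕ) (al : ℕ → ℤ), 1 ≤ r → r ≤ R → Sgn2 G lam r k s al → k ≤ K

end Pool.Agent.Helper17.CR
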