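import Pool.Agent.Helper17.CR.Fin
import Pool.Agent.Helper17.CR.Sp
import Pool.Agent.Helper17.CR.Main2
import Pool.Agent.Helper94.CR.HALL
import Pool.Agent.Helper55.CR.SEQ
import Pool.Agent.Helper41.CR.WRO
import Pool.Agent.Helper84.CR.PAIR
import Pool.Agent.Helper85.CR.WBD
import Pool.Agent.Helper41.CR.SPF
import Pool.Agent.Helper57.CR.SIEG
import Pool.Agent.Helper72.CR.UPP
import Pool.Agent.Helper67.CR.CASEA2
import Pool.Agent.Helper38.CR.VAL
import Pool.Agent.Helper79.CR.WT2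
import Pool.Agent.Helper46.CR.MOD2
import Pool.Agent.Helper61.CR.ZERO
import Pool.Agent.Helper63.CR.WDIV
import Pool.Agent.Helper94.CR.FITG

set_option autoImplicit false

namespace Pool.Agent.Helper17.CR

universe u

theorem fin_SP : ST_SP :=
  sp st_SIEG (st_ZERO (st_WDIV Pool.Agent.Helper41.CR.st_WRO) st_WBD) st_VAL
    Pool.Agent.Helper72.CR.st_UPP st_PAIR st_SEQ

theorem fin_SOLV2 : ST_SOLV2.{u} :=
  solv2 Pool.Agent.Helper90.CR.st_BIG st_HALL Pool.Agent.Helper64.CR.st_MIN st_FITG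
    (Pool.Agent.Helper46.CR.st_MOD2 Pool.Agent.Helper38.CR.st_FRAT Pool.Agent.Helper39.CR.st_FIXQ)
    (Pool.Agent.Helper67.CR.st_CASEA2 st_WT2) (Pool.Agent.Helper41.CR.st_SPF fin_SP)

end Pool.Agent.Helper17.CR
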